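import Pool.Agent.V7H34.CY.R4
import Pool.Agent.V7H45.BF.ANTc
import Pool.Agent.W125.RK2.SUBB
import Pool.Agent.W125.RK2.SUB4
import Pool.Agent.W230.RT.Avg2

/-! JOB A4 of project CYC: the average over the weighted box. -/

set_option autoImplicit false
set_option maxHeartbeats 400000

namespace Pool.Agent.V7H34.CY

open Finset Pool.Agent.W262.RK Pool.Agent.W307.RT Pool.Agent.V7H45.BF
open Pool.Agent.V7H45.CY

lemma NB_nn4 (s : Fin 3 → ℕ) : 0 ≤ NB c3 (fun j _ => κ3 j) s := by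
  unfold NB
  exact mul_nonneg (by positivity) (sum_nonneg fun _ _ => Nat.cast_nonneg _)

/-- `(4 ^ m x)^(1/8) ≤ 4 ^ m x^(1/8)` -/
lemma root_mul4 {B x : ℝ} (hB : B = 0 ∨ 1 ≤ B) (hx : 0 ≤ x) :
    (B * x) ^ (1 / 8 : ℝ) ≤ B * x ^ (1 / 8 : ℝ) := by
  rcases hB with rfl | hB
  · rw [zero_mul, zero_mul, Real.zero_rpow (by norm_num)]
  · rw [Real.mul_rpow (by linarith) hx]
    apply mul_le_mul_of_nonneg_right _ (Real.rpow_nonneg hx _)
    have := Real.rpow_le_rpow_of_exponent_le hB (by norm_num : (1 / 8 : ℝ) ≤ 1)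
    rwa [Real.rpow_one] at this

lemma R8_nn4 (M N : ℤ) : 0 ≤ R8 M N := by
  unfold R8
  positivity

lemma R8_le4 {M N : ℤ} {B g : ℕ}
    (h : 2 ^ Module.finrank ℤ (EAB (-M) (-N)).toAffine.Point ≤ B * g) :
    R8 M N ≤ (B : ℝ) * (g : ℝ) ^ (1 / 8 : ℝ) := by
  have h1 : R8 M N = ((2 : ℝ) ^ Module.finrank ℤ (EAB (-M) (-N)).toAffine.Point) ^
      (1 / 8 : ℝ) := by
    unfold R8
    rw [← Real.rpow_natCast, ← Real.rpow_mul (by norm_num)]
    congr 1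
    ring
  rw [h1]
  refine (Real.rpow_le_rpow (by positivity) (z := (1 / 8 : ℝ)) (?_ : (2 : ℝ) ^
    Module.finrank ℤ (EAB (-M) (-N)).toAffine.Point ≤ (B : ℝ) * g) (by norm_num)).trans ?_
  · exact_mod_cast h
  · apply root_mul4 _ (Nat.cast_nonneg g)
    rcases Nat.eq_zero_or_pos B with h0 | h0
    · left; rw [h0]; norm_num
    · right; exact_mod_cast h0

/-- the number of the prime factors of `u` -/
lemma card_u4 {y Y X k : ℕ} {u : Fin 3 → ℕ} (hu : u ∈ Tup (Fin 3) y Y)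
    (hX : (∏ j, u j) ^ 8 ≤ X) (hk : X < (y + 1) ^ k) : ∑ j, (u j).primeFactors.card ≤ k := by
  have hd : ∀ j, u j ∈ (PP y Y).divisors := fun j =>
    Nat.mem_divisors.2 ⟨(mem_Tup'.1 hu).1 j, PP_ne_zero y Y⟩
  have h1 : (y + 1) ^ (∑ j, (u j).primeFactors.card) ≤ ∏ j, u j := by
    rw [← prod_pow_eq_pow_sum]
    apply prod_le_prod'
    intro j _
    have h2 : (y + 1) ^ (u j).primeFactors.card ≤ ∏ q ∈ (u j).primeFactors, q :=
      Finset.pow_card_le_prod _ _ _ (fun q hq => by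
        have := (dv_prime (hd j) (Nat.prime_of_mem_primeFactors hq)
          (Nat.dvd_of_mem_primeFactors hq)).1
        omega)
    rwa [Nat.prod_primeFactors_of_squarefree (dv_squarefree (hd j))] at h2
  have h3 : 1 ≤ ∏ j, u j := Nat.one_le_iff_ne_zero.2 (prod_ne_zero_iff.2 fun j _ =>
    dv_ne_zero (hd j))
  have h4 : (y + 1) ^ (∑ j, (u j).primeFactors.card) < (y + 1) ^ k :=
    calc (y + 1) ^ (∑ j, (u j).primeFactors.card) ≤ ∏ j, u j := h1
      _ ≤ (∏ j, u j) ^ 8 := Nat.le_self_pow (by norm_num) _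
      _ ≤ X := hX
      _ < _ := hk
  by_contra hcon
  push Not at hcon
  exact absurd (Nat.pow_le_pow_right (by omega : 0 < y + 1) hcon.le) (by omega)

/-- the divisors of a product -/
lemma sum_div_le {m n : ℕ} (f : ℕ → ℝ) (hf : ∀ x, 0 ≤ f x) :
    ∑ x ∈ (m * n).divisors, f x ≤ ∑ p ∈ m.divisors ×ˢ n.divisors, f (p.1 * p.2) := by
  classical
  rw [Finset.sum_comp f (fun p : ℕ × ℕ => p.1 * p.2)]
  have h : (m * n).divisors = (m.divisors ×ˢ n.divisors).image (fun p => p.1 * p.2) := by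
    rw [Nat.divisors_mul, Finset.mul_def]
  rw [h]
  apply sum_le_sum
  intro b hb
  obtain ⟨a, ha, hab⟩ := mem_image.1 hb
  have h1 : 1 ≤ ((m.divisors ×ˢ n.divisors).filter (fun p => p.1 * p.2 = b)).card :=
    card_pos.2 ⟨a, mem_filter.2 ⟨ha, hab⟩⟩
  rw [nsmul_eq_mul]
  exact le_mul_of_one_le_left (hf b) (by exact_mod_cast h1)

lemma card_div {n : ℕ} (hn : Squarefree n) :
    (1 / 2 : ℝ) ^ n.primeFactors.card * (n.divisors.card : ℝ) ≤ 1 := by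
  have h1 : n.divisors.card ≤ 2 ^ n.primeFactors.card := by
    rw [Nat.card_divisors hn.ne_zero, ← prod_const]
    apply prod_le_prod'
    intro p _
    have := hn.natFactorization_le_one p
    omega
  have h2 : (n.divisors.card : ℝ) ≤ 2 ^ n.primeFactors.card := by exact_mod_cast h1
  calc (1 / 2 : ℝ) ^ n.primeFactors.card * (n.divisors.card : ℝ)
      ≤ (1 / 2 : ℝ) ^ n.primeFactors.card * 2 ^ n.primeFactors.card :=
        mul_le_mul_of_nonneg_left h2 (by positivity)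
    _ = 1 := by
        rw [← mul_pow]
        norm_num

lemma up3_mul (a c : ℕ) (s e : Fin 3 → ℕ) :
    up3 (a * c) (fun j => s j * e j) = fun j => up3 a s j * up3 c e j := by
  funext j
  fin_cases j <;> rfl

lemma up3_dvd {a : ℕ} {s : Fin 3 → ℕ} (h : a ∣ s 0) (j : Fin 3) : up3 a s j ∣ s j := by
  fin_cases j
  · exact h
  · exact dvd_rfl
  · exact dvd_rfl

lemma G3_nn (s : Fin 3 → ℕ) : 0 ≤ G3 s := by
  unfold G3
  exact mul_nonneg (by positivity) (sum_nonneg fun a _ => Real.rpow_nonneg (NB_nn4 _) _)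

/-- the local majorant is submultiplicative -/
lemma G3_sub {z y : ℕ} (hz : 2 ≤ z) {s e : Fin 3 → ℕ}
    (h : (fun j => s j * e j) ∈ Tup (Fin 3) z y) :
    G3 (fun j => s j * e j) ≤ 4 ^ (∑ j, (e j).primeFactors.card) * G3 s := by
  have hsubb : SUBB := Pool.Agent.W125.RK2.subb_of Pool.Agent.W125.RK2.sub4
    Pool.Agent.W342.RK2.xcl
  have hd : ∀ j, s j * e j ∈ (PP z y).divisors := fun j =>
    Nat.mem_divisors.2 ⟨(mem_Tup'.1 h).1 j, PP_ne_zero z y⟩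
  have hne : ∀ j, s j * e j ≠ 0 := fun j => dv_ne_zero (hd j)
  have hsq := dv_squarefree (hd 0)
  have hcop : (s 0).Coprime (e 0) := Nat.coprime_of_squarefree_mul hsq
  have hsqe : Squarefree (e 0) := hsq.squarefree_of_dvd (Dvd.intro_left _ rfl)
  have hin : ∀ a ∈ (s 0).divisors, ∀ c ∈ (e 0).divisors,
      (NB c3 (fun j _ => κ3 j) (up3 (a * c) (fun j => s j * e j))) ^ (1 / 8 : ℝ) ≤
      4 ^ (∑ j, (e j).primeFactors.card) *
        (NB c3 (fun j _ => κ3 j) (up3 a s)) ^ (1 / 8 : ℝ) := by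
    intro a ha c hc
    have ha' := Nat.dvd_of_mem_divisors ha
    have hc' := Nat.dvd_of_mem_divisors hc
    rw [up3_mul]
    have hmem : (fun j => up3 a s j * up3 c e j) ∈ Tup (Fin 3) z y :=
      Tup_dvd h fun j => mul_dvd_mul (up3_dvd ha' j) (up3_dvd hc' j)
    have hκ1 : ∀ j, κ3 j ≠ 0 := by decide
    have hκ2 : ∀ j, (κ3 j).natAbs ≤ 2 := by decide
    have h1 := hsubb (Fin 3) c3 (fun j _ => κ3 j) z y hz (fun j _ => hκ1 j)
      (fun j _ => (hκ2 j).trans hz) (up3 a s) (up3 c e) hmem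
    have h4 : NB c3 (fun j _ => κ3 j) (fun j => up3 a s j * up3 c e j) ≤
        4 ^ (∑ j, (e j).primeFactors.card) * NB c3 (fun j _ => κ3 j) (up3 a s) := by
      refine h1.trans (mul_le_mul_of_nonneg_right ?_ (NB_nn4 _))
      apply pow_le_pow_right₀ (by norm_num)
      apply sum_le_sum
      intro j _
      apply card_le_card
      exact Nat.primeFactors_mono (up3_dvd hc' j) (right_ne_zero_of_mul (hne j))
    refine (Real.rpow_le_rpow (NB_nn4 _) h4 (by norm_num)).trans ?_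
    exact root_mul4 (Or.inr (one_le_pow₀ (by norm_num))) (NB_nn4 _)
  set F : ℝ := 4 ^ (∑ j, (e j).primeFactors.card) with hF
  have hF0 : 0 ≤ F := by rw [hF]; positivity
  set A : ℝ := ∑ a ∈ (s 0).divisors, (NB c3 (fun j _ => κ3 j) (up3 a s)) ^ (1 / 8 : ℝ) with hA
  have hA0 : 0 ≤ A := sum_nonneg fun a _ => Real.rpow_nonneg (NB_nn4 _) _
  have hsum : ∑ x ∈ (s 0 * e 0).divisors,
      (NB c3 (fun j _ => κ3 j) (up3 x (fun j => s j * e j))) ^ (1 / 8 : ℝ) ≤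
      ((e 0).divisors.card : ℝ) * (F * A) := by
    refine (sum_div_le (fun x => (NB c3 (fun j _ => κ3 j) (up3 x (fun j => s j * e j))) ^
      (1 / 8 : ℝ)) (fun x => Real.rpow_nonneg (NB_nn4 _) _)).trans ?_
    rw [sum_product]
    calc ∑ a ∈ (s 0).divisors, ∑ c ∈ (e 0).divisors,
          (NB c3 (fun j _ => κ3 j) (up3 (a * c) (fun j => s j * e j))) ^ (1 / 8 : ℝ)
        ≤ ∑ a ∈ (s 0).divisors, ∑ _c ∈ (e 0).divisors,
          F * (NB c3 (fun j _ => κ3 j) (up3 a s)) ^ (1 / 8 : ℝ) :=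
          sum_le_sum fun a ha => sum_le_sum fun c hc => hin a ha c hc
      _ = ((e 0).divisors.card : ℝ) * (F * A) := by
          rw [hA, mul_sum, mul_sum]
          apply sum_congr rfl
          intro a _
          rw [sum_const, nsmul_eq_mul]
  have hc2 : (s 0 * e 0).primeFactors.card = (s 0).primeFactors.card + (e 0).primeFactors.card := by
    rw [Nat.Coprime.primeFactors_mul hcop, card_union_of_disjoint hcop.disjoint_primeFactors]
  unfold G3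
  rw [hc2, pow_add]
  have hcd := card_div hsqe
  set P : ℝ := (1 / 2 : ℝ) ^ (s 0).primeFactors.card with hP
  have hP0 : 0 ≤ P := by rw [hP]; positivity
  set Q : ℝ := (1 / 2 : ℝ) ^ (e 0).primeFactors.card with hQ
  have hQ0 : 0 ≤ Q := by rw [hQ]; positivity
  calc P * Q * ∑ x ∈ (s 0 * e 0).divisors,
        (NB c3 (fun j _ => κ3 j) (up3 x (fun j => s j * e j))) ^ (1 / 8 : ℝ)
      ≤ P * Q * (((e 0).divisors.card : ℝ) * (F * A)) :=
        mul_le_mul_of_nonneg_left hsum (mul_nonneg hP0 hQ0)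
    _ = (Q * ((e 0).divisors.card : ℝ)) * (F * (P * A)) := by ring
    _ ≤ 1 * (F * (P * A)) :=
        mul_le_mul_of_nonneg_right hcd (mul_nonneg hF0 (mul_nonneg hP0 hA0))
    _ = F * (P * A) := one_mul _

lemma spl_dvd (z y : ℕ) (e : ℤ) (ω : ℕ × ℕ × ℕ) : spl z y e ω ∣ S1 z y (f3 e ω) 0 := by
  unfold spl
  exact (prod_dvd_prod_of_subset _ _ _ (filter_subset _ _)).trans (Nat.prod_primeFactors_dvd _)

lemma f3_le {e : ℤ} (he : e = 1 ∨ e = -1) {X : ℕ} (hX : 2 ≤ X) {ω : ℕ × ℕ × ℕ}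
    (hω : ω ∈ W3 e X) (j : Fin 3) : (f3 e ω j).natAbs ≤ X ^ 7 := by
  classical
  unfold W3 at hω
  rw [mem_filter, mem_product, mem_product, mem_Icc, mem_Icc, mem_Icc] at hω
  obtain ⟨⟨⟨hg1, hg2⟩, ⟨ht1, ht2⟩, hn1, hn2⟩, hok, hgt, hgn⟩ := hω
  have hen : (e * (ω.2.2 : ℤ)).natAbs = ω.2.2 := by
    rcases he with rfl | rfl
    · rw [one_mul, Int.natAbs_natCast]
    · rw [neg_one_mul, Int.natAbs_neg, Int.natAbs_natCast]
  have h24 : X ^ 2 ≤ X ^ 7 := Nat.pow_le_pow_right (by omega) (by norm_num)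
  have h47 : X ^ 4 ≤ X ^ 7 := Nat.pow_le_pow_right (by omega) (by norm_num)
  fin_cases j
  · change ((ω.2.1 : ℤ)).natAbs ≤ X ^ 7
    rw [Int.natAbs_natCast]
    exact ht2.trans h24
  · change (e * (ω.2.2 : ℤ)).natAbs ≤ X ^ 7
    rw [hen]
    exact hn2.trans h47
  · change (4 * (e * (ω.2.2 : ℤ)) - (ω.1 : ℤ) * (ω.2.1 : ℤ) ^ 2).natAbs ≤ X ^ 7
    have h1 : (4 * (e * (ω.2.2 : ℤ))).natAbs = 4 * ω.2.2 := by
      rw [Int.natAbs_mul, hen]
      rfl
    have h2 : ((ω.1 : ℤ) * (ω.2.1 : ℤ) ^ 2).natAbs = ω.1 * ω.2.1 ^ 2 := by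
      rw [Int.natAbs_mul, Int.natAbs_pow, Int.natAbs_natCast, Int.natAbs_natCast]
    have h3 : ω.1 * ω.2.1 ^ 2 ≤ X ^ 4 := by
      calc ω.1 * ω.2.1 ^ 2 = (ω.1 * ω.2.1) * ω.2.1 := by ring
        _ ≤ X ^ 2 * X ^ 2 := Nat.mul_le_mul hgt ht2
        _ = X ^ 4 := by ring
    have h5 : 5 * X ^ 4 ≤ X ^ 7 := by
      have h6 : 5 ≤ X ^ 3 := le_trans (by norm_num) (Nat.pow_le_pow_left hX 3)
      calc 5 * X ^ 4 ≤ X ^ 3 * X ^ 4 := Nat.mul_le_mul_right _ h6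
        _ = X ^ 7 := by ring
    have h7 := Int.natAbs_sub_le (4 * (e * (ω.2.2 : ℤ))) ((ω.1 : ℤ) * (ω.2.1 : ℤ) ^ 2)
    rw [h1, h2] at h7
    omega

/-- the final inequality -/
lemma fin4 {C Z Dk X6 H P1 V4 P2 P3 L two twok S A : ℝ} (hC : 0 ≤ C) (hZ : 0 ≤ Z) (hD : 0 ≤ Dk)
    (hX : 0 ≤ X6) (hH : 0 ≤ H) (h1 : 0 ≤ P1) (h4 : 0 ≤ V4) (h2 : 0 ≤ P2) (h3 : 0 ≤ P3)
    (hL : 0 < L) (hA : 0 ≤ A)
    (hN : S ≤ (Z * Dk * V4) * (A * (C * X6 * H * P1 * (V4 * P2) * (two * P3) / L)))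
    (ht : two ≤ twok) :
    S ≤ (C * Z) * (Dk * twok) * X6 * ((H * A) * P1) * (V4 * (V4 * P2)) * P3 / L := by
  have hb : 0 ≤ C * Z * Dk * X6 * ((H * A) * P1) * (V4 * (V4 * P2)) * P3 / L := by positivity
  calc S ≤ _ := hN
    _ = (C * Z * Dk * X6 * ((H * A) * P1) * (V4 * (V4 * P2)) * P3 / L) * two := by ring
    _ ≤ (C * Z * Dk * X6 * ((H * A) * P1) * (V4 * (V4 * P2)) * P3 / L) * twok :=
        mul_le_mul_of_nonneg_left ht hb
    _ = _ := by ring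

/-- **JOB A4** -/
theorem t_A4 : S_A4 := by
  classical
  intro hN4 hR4 hS3 e he
  obtain ⟨c, z1, hz1⟩ := hN4 e he
  obtain ⟨z2, E, hrk⟩ := hR4
  obtain ⟨z0, hz0⟩ := hS3 c
  set z : ℕ := z0 + z1 + z2 + (2 * c + 2) + 3 with hz
  have hz3 : 3 ≤ z := by omega
  obtain ⟨C', hC'⟩ := hz0 z (by omega)
  obtain ⟨C, K, y0, hC0, hK1, hcn⟩ := hz1 z (by omega)
  have hok : ∀ X, ∀ ω ∈ W3 e X, Ok3 e ω := fun X ω hω => (mem_filter.1 hω).2.1
  have key := ant (J := Fin 3) (Ω := ℕ × ℕ × ℕ) (b := 16) (by norm_num) c (W3 e) (W3 e)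
    (f3 e) (fun X => (X : ℝ) ^ 6) z G3 (fun ω => R8 (M3 ω) (N3 e ω))
    (C * 4 ^ (z + 2)) C' ((E + 1 : ℕ) * 2) K (y0 + 16) (by omega) (fun X => Subset.refl _)
    (fun X Y hXY => ?_) (fun X hX => ?_)
    (fun X ω hω => ?_) G3_nn (fun t => R8_nn4 _ _)
    (by positivity) (by push_cast; have : (0 : ℝ) ≤ E := Nat.cast_nonneg E; linarith) hK1
    (fun y hy s e' hse => ?_) (fun y hy => ?_) ?_
  · exact key
  · intro ω hω
    unfold W3 at hω ⊢
    rw [mem_filter, mem_product, mem_product, mem_Icc, mem_Icc, mem_Icc] at hω ⊢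
    have e2 : X ^ 2 ≤ Y ^ 2 := Nat.pow_le_pow_left hXY 2
    have e4 : X ^ 4 ≤ Y ^ 4 := Nat.pow_le_pow_left hXY 4
    exact ⟨⟨⟨hω.1.1.1, hω.1.1.2.trans e2⟩, ⟨hω.1.2.1.1, hω.1.2.1.2.trans e2⟩,
      hω.1.2.2.1, hω.1.2.2.2.trans e4⟩, hω.2.1, hω.2.2.1.trans e2, hω.2.2.2.trans e4⟩
  · have : (1 : ℝ) ≤ X := by exact_mod_cast hX
    positivity
  · refine ⟨f3ne he (hok X ω hω), fun p hp hzp j l hjl h => ?_⟩
    exact nd3 he (hok X ω hω) hp (by omega) j l hjl h.1 h.2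
  · refine (G3_sub (by omega) hse).trans (mul_le_mul_of_nonneg_right ?_ (G3_nn s))
    exact pow_le_pow_left₀ (by norm_num) (by norm_num) _
  · rw [Fintype.card_fin]
    exact hC' y hy
  intro X y Y k hy0 hzy hyK _ _ hk s hs v hv u hu h8 T' hT' hT2
  have hy00 : y0 ≤ y := by omega
  have hyX : y ≤ X := le_trans (Nat.le_self_pow (by omega) y) hyK
  have hX16 : 16 ≤ X := by omega
  have hc3 : ∀ j, c3 j ≠ 3 := by decide
  have e1 : ∀ a, NB c3 (fun j _ => κ3 j) (up3 a s) =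
      (NL (∏ j, up3 a s j) (LLs c3 (fun j _ => κ3 j) (up3 a s) ∅) : ℝ) := fun a =>
    Pool.Agent.W230.RT.nb_eq hc3 (fun j _ => κ3 j) _
  have hE1 : ((E : ℕ) : ℝ) ^ k ≤ ((E + 1 : ℕ) : ℝ) ^ k :=
    pow_le_pow_left₀ (Nat.cast_nonneg E) (by push_cast; linarith) k
  set B : ℝ := 4 ^ (z + 2) * ((E + 1 : ℕ) : ℝ) ^ k * 4 ^ (∑ j, (v j).primeFactors.card) with hB
  have hB0 : 0 ≤ B := by rw [hB]; positivity
  set rt : ℕ → ℝ := fun a => (NB c3 (fun j _ => κ3 j) (up3 a s)) ^ (1 / 8 : ℝ) with hrt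
  have hrt0 : ∀ a, 0 ≤ rt a := fun a => Real.rpow_nonneg (NB_nn4 _) _
  have h1 : ∀ ω ∈ T', R8 (M3 ω) (N3 e ω) ≤
      B * (16 : ℝ) ^ ω.1.primeFactors.card * rt (spl z y e ω) := by
    intro ω hω
    have hω1 := hT' hω
    obtain ⟨hts, htv, _⟩ := hT2 ω hω
    have hr := hrk z y X k (by omega) e ω he (hok X ω hω1)
      (fun j => f3_le he (by omega) hω1 j) (by omega) hk
    rw [hts, htv] at hr
    refine (R8_le4 hr).trans ?_
    rw [← e1]
    have h9 : (NB c3 (fun j _ => κ3 j) (up3 (spl z y e ω) s)) ^ (1 / 8 : ℝ) =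
        rt (spl z y e ω) := rfl
    rw [h9]
    apply mul_le_mul_of_nonneg_right _ (hrt0 _)
    have h10 : (4 : ℝ) ^ ω.1.primeFactors.card ≤ 16 ^ ω.1.primeFactors.card :=
      pow_le_pow_left₀ (by norm_num) (by norm_num) _
    rw [hB]
    push_cast at hE1 ⊢
    gcongr
  have h2 : ∀ ω ∈ T', spl z y e ω ∈ (s 0).divisors := by
    intro ω hω
    obtain ⟨hts, _, _⟩ := hT2 ω hω
    have h3 := spl_dvd z y e ω
    rw [hts] at h3
    have h5 : s 0 ≠ 0 := dv_ne_zero (Nat.mem_divisors.2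
      ⟨(mem_Tup'.1 hs).1 0, PP_ne_zero z y⟩)
    exact Nat.mem_divisors.2 ⟨h3, h5⟩
  set Q : ℝ := C * X ^ 6 * (1 / 2) ^ (s 0).primeFactors.card * (∏ j, gw 1 c (s j)) *
        (∏ j, 4 ^ (v j).primeFactors.card * (gw 1 c (v j) / v j)) *
        (∏ j, 2 ^ (u j).primeFactors.card * (1 / (u j : ℝ))) / (Real.log y) ^ 3 with hQ
  have h3 : ∀ a ∈ (s 0).divisors, ∑ ω ∈ T'.filter (fun ω => spl z y e ω = a),
      (16 : ℝ) ^ ω.1.primeFactors.card ≤ Q := by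
    intro a ha
    refine le_trans ?_ (hcn X y Y hy00 hzy hyK s hs v hv u hu h8 a (Nat.dvd_of_mem_divisors ha))
    apply sum_le_sum_of_subset_of_nonneg
    · intro ω hω
      rw [mem_filter] at hω ⊢
      exact ⟨hT' hω.1, (hT2 ω hω.1).1, (hT2 ω hω.1).2.1, (hT2 ω hω.1).2.2, hω.2⟩
    · intro ω _ _
      positivity
  have hsumle : ∑ ω ∈ T', R8 (M3 ω) (N3 e ω) ≤ B * ((∑ a ∈ (s 0).divisors, rt a) * Q) := by
    calc ∑ ω ∈ T', R8 (M3 ω) (N3 e ω)
        ≤ ∑ ω ∈ T', B * (16 : ℝ) ^ ω.1.primeFactors.card * rt (spl z y e ω) := sum_le_sum h1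
      _ = ∑ a ∈ (s 0).divisors, ∑ ω ∈ T'.filter (fun ω => spl z y e ω = a),
            B * (16 : ℝ) ^ ω.1.primeFactors.card * rt (spl z y e ω) :=
          (sum_fiberwise_of_maps_to h2 _).symm
      _ = ∑ a ∈ (s 0).divisors, B * (rt a *
            ∑ ω ∈ T'.filter (fun ω => spl z y e ω = a), (16 : ℝ) ^ ω.1.primeFactors.card) := by
          apply sum_congr rfl
          intro a _
          rw [mul_sum, mul_sum]
          apply sum_congr rfl
          intro ω hω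
          rw [(mem_filter.1 hω).2]
          ring
      _ ≤ ∑ a ∈ (s 0).divisors, B * (rt a * Q) :=
          sum_le_sum fun a ha => mul_le_mul_of_nonneg_left
            (mul_le_mul_of_nonneg_left (h3 a ha) (hrt0 a)) hB0
      _ = B * ((∑ a ∈ (s 0).divisors, rt a) * Q) := by
          rw [sum_mul, mul_sum]
  have hly : 0 < Real.log y := Real.log_pos (by exact_mod_cast (by omega : 1 < y))
  have hcz : c ≤ z := by omega
  have hgr0 : 0 ≤ ∏ j, gw 1 c (s j) := prod_nonneg fun j _ =>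
    gw_nonneg zero_le_one hcz (Nat.mem_divisors.2
      ⟨(mem_Tup'.1 hs).1 j, PP_ne_zero z y⟩)
  have hgv0 : ∀ j, 0 ≤ gw 1 c (v j) / v j := fun j => div_nonneg
    (gw_nonneg zero_le_one hcz (Nat.mem_divisors.2
      ⟨(mem_Tup'.1 hv).1 j, PP_ne_zero z y⟩)) (Nat.cast_nonneg _)
  have hu2 : ∑ j, (u j).primeFactors.card ≤ k := by
    apply card_u4 hu _ hk
    refine le_trans (Nat.pow_le_pow_left ?_ 8) h8
    apply prod_le_prod'
    intro j _
    have hs0 : 0 < s j := Nat.pos_of_ne_zero (dv_ne_zero (Nat.mem_divisors.2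
      ⟨(mem_Tup'.1 hs).1 j, PP_ne_zero z y⟩))
    have hv0 : 0 < v j := Nat.pos_of_ne_zero (dv_ne_zero (Nat.mem_divisors.2
      ⟨(mem_Tup'.1 hv).1 j, PP_ne_zero z y⟩))
    exact Nat.le_mul_of_pos_left _ (Nat.mul_pos hs0 hv0)
  have hu0 : 0 ≤ ∏ j, 1 / (u j : ℝ) := prod_nonneg fun j _ => by positivity
  have hvprod : 0 ≤ ∏ j, (gw 1 c (v j) / v j) := prod_nonneg fun j _ => hgv0 j
  have e2 : (∏ j, (16 : ℝ) ^ (v j).primeFactors.card * (gw 1 c (v j) / v j)) =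
      4 ^ (∑ j, (v j).primeFactors.card) * (4 ^ (∑ j, (v j).primeFactors.card) *
        ∏ j, (gw 1 c (v j) / v j)) := by
    rw [prod_mul_distrib, prod_pow_eq_pow_sum, ← mul_assoc, ← mul_pow]
    norm_num
  have e4 : (∏ j, (4 : ℝ) ^ (v j).primeFactors.card * (gw 1 c (v j) / v j)) =
      4 ^ (∑ j, (v j).primeFactors.card) * ∏ j, (gw 1 c (v j) / v j) := by
    rw [prod_mul_distrib, prod_pow_eq_pow_sum]
  have e5 : (∏ j, (2 : ℝ) ^ (u j).primeFactors.card * (1 / (u j : ℝ))) =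
      2 ^ (∑ j, (u j).primeFactors.card) * ∏ j, 1 / (u j : ℝ) := by
    rw [prod_mul_distrib, prod_pow_eq_pow_sum]
  have eG : G3 s = (1 / 2) ^ (s 0).primeFactors.card * ∑ a ∈ (s 0).divisors, rt a := rfl
  rw [e2, eG, Fintype.card_fin, mul_pow]
  rw [hQ, e4, e5, hB] at hsumle
  exact fin4 (V4 := (4 : ℝ) ^ (∑ j, (v j).primeFactors.card))
    (two := (2 : ℝ) ^ (∑ j, (u j).primeFactors.card)) hC0 (pow_nonneg (by norm_num) _)
    (pow_nonneg (Nat.cast_nonneg _) _) (by positivity) (by positivity) hgr0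
    (pow_nonneg (by norm_num) _)
    hvprod hu0 (pow_pos hly 3) (sum_nonneg fun a _ => hrt0 a) hsumle
    (pow_le_pow_right₀ (by norm_num) hu2)

end Pool.Agent.V7H34.CY
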