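import Pool.Agent.V7H34.CY.Gen

/-! JOB R5 and JOB R12 of project CYC. -/

set_option autoImplicit false

namespace Pool.Agent.V7H34.CY

open Finset Pool.Agent.W262.RK Pool.Agent.W307.RT Pool.Agent.W571.RT Pool.Agent.W342.RK2
open Pool.Agent.V7H45.CY

lemma jac_mod {p : ℕ} (hp : p.Prime) {u t : ℤ} (h : (p : ℤ) ∣ u - t ^ 2) (ht : ¬ (p : ℤ) ∣ t) :
    jacobiSym u p = 1 := by
  have h1 : t ^ 2 ≡ u [ZMOD p] := Int.modEq_iff_dvd.2 h
  rw [jacobiSym.mod_left' h1.symm]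
  exact Pool.Agent.W571.RT.jac_sq hp ht

lemma nd_of {p : ℕ} (hp : p.Prime) {a b u v C x1 x2 y1 y2 : ℤ} (hab : IsCoprime a b)
    (hC : ¬ (p : ℤ) ∣ C) (e1 : C * a ^ 2 = x1 * u + x2 * v) (e2 : C * b ^ 2 = y1 * u + y2 * v)
    (hu : (p : ℤ) ∣ u) (hv : (p : ℤ) ∣ v) : False := by
  have hpi : Prime (p : ℤ) := Nat.prime_iff_prime_int.1 hp
  have k1 : (p : ℤ) ∣ C * a ^ 2 := by
    rw [e1]
    exact dvd_add (hu.mul_left _) (hv.mul_left _)
  have k2 : (p : ℤ) ∣ C * b ^ 2 := by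
    rw [e2]
    exact dvd_add (hu.mul_left _) (hv.mul_left _)
  have ha : (p : ℤ) ∣ a := hpi.dvd_of_dvd_pow ((hpi.dvd_or_dvd k1).resolve_left hC)
  have hb : (p : ℤ) ∣ b := hpi.dvd_of_dvd_pow ((hpi.dvd_or_dvd k2).resolve_left hC)
  exact hpi.not_isUnit (hab.isUnit_of_dvd' ha hb)

lemma not_dvd_lit {p : ℕ} (hp : p.Prime) (h3 : 3 < p) {C : ℤ} (hC : C ∣ 6 ^ 6) :
    ¬ (p : ℤ) ∣ C := by
  intro h
  have h1 : (p : ℤ) ∣ 6 ^ 6 := h.trans hC
  have h2 : p ∣ 6 ^ 6 := by exact_mod_cast h1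
  have h4 : p ∣ 6 := hp.dvd_of_dvd_pow h2
  have h5 := Nat.le_of_dvd (by norm_num) h4
  interval_cases p <;> revert hp h4 <;> decide

/-! ### `Z/8` -/

/-- the constant factors -/
def a5 : Fin 3 → ℤ := ![-1, -1, -1]

lemma F50 (a b : ℤ) : FM c5 a5 m5 (f5 a b) 0 = -(Mc8 a b) := by
  unfold FM Mc8
  rw [show fc c5 0 = {0} by decide, prod_singleton]
  change (-1 : ℤ) * a ^ 4 = _
  ring

lemma F51 (a b : ℤ) : FM c5 a5 m5 (f5 a b) 1 = -(Nc8 a b) := by
  unfold FM Nc8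
  rw [show fc c5 1 = {1, 2} by decide, prod_pair (by decide)]
  change (-1 : ℤ) * ((b - a) ^ 2 * (b + a) ^ 2) = _
  ring

lemma F52 (a b : ℤ) : FM c5 a5 m5 (f5 a b) 2 = -(Mc8 a b) + Nc8 a b := by
  unfold FM Mc8 Nc8
  rw [show fc c5 2 = {3, 4} by decide, prod_pair (by decide)]
  change (-1 : ℤ) * (b ^ 2 * (2 * a ^ 2 - b ^ 2) ^ 1) = _
  ring

lemma cof5 (a b : ℤ) (j l : Fin 5) (h : j < l) : ∃ x1 x2 y1 y2 : ℤ,
    2 * a ^ 2 = x1 * f5 a b j + x2 * f5 a b l ∧ 2 * b ^ 2 = y1 * f5 a b j + y2 * f5 a b l := by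
  fin_cases j <;> fin_cases l <;> first
    | exact absurd h (by decide)
    | exact ⟨2 * a, 0, 2 * b, 2 * b, by simp [f5]; ring1, by simp [f5]; ring1⟩
    | exact ⟨2 * a, 0, -(2 * b), 2 * b, by simp [f5]; ring1, by simp [f5]; ring1⟩
    | exact ⟨2 * a, 0, 0, 2 * b, by simp [f5]; ring1, by simp [f5]; ring1⟩
    | exact ⟨2 * a, 0, 4 * a, -2, by simp [f5]; ring1, by simp [f5]; ring1⟩
    | exact ⟨-a, a, b, b, by simp [f5]; ring1, by simp [f5]; ring1⟩
    | exact ⟨-(2 * a), 2 * a, 0, 2 * b, by simp [f5]; ring1, by simp [f5]; ring1⟩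
    | exact ⟨2 * (b + a), 2, 4 * (b + a), 2, by simp [f5]; ring1, by simp [f5]; ring1⟩
    | exact ⟨2 * a, -(2 * a), 0, 2 * b, by simp [f5]; ring1, by simp [f5]; ring1⟩
    | exact ⟨2 * (b - a), 2, 4 * (b - a), 2, by simp [f5]; ring1, by simp [f5]; ring1⟩
    | exact ⟨b, 1, 2 * b, 0, by simp [f5]; ring1, by simp [f5]; ring1⟩

lemma nd5 {p : ℕ} (hp : p.Prime) (h3 : 3 < p) {a b : ℤ} (hab : IsCoprime a b) (j l : Fin 5)
    (hjl : j ≠ l) (h1 : (p : ℤ) ∣ f5 a b j) (h2 : (p : ℤ) ∣ f5 a b l) : False := by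
  have hC : ¬ (p : ℤ) ∣ 2 := not_dvd_lit hp h3 (by norm_num)
  rcases lt_or_gt_of_ne hjl with h | h
  · obtain ⟨x1, x2, y1, y2, e1, e2⟩ := cof5 a b j l h
    exact nd_of hp hab hC e1 e2 h1 h2
  · obtain ⟨x1, x2, y1, y2, e1, e2⟩ := cof5 a b l j h
    exact nd_of hp hab hC e1 e2 h2 h1

lemma dat5 {a b : ℤ} (hab : IsCoprime a b) : Dat 3 (f5 a b) c5 a5 m5 κ5 3 (-1) where
  z2 := by norm_num
  nd := fun p hp h3 j l hjl h1 h2 => nd5 hp h3 hab j l hjl h1 h2
  c3 := by decide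
  m1 := by decide
  a0 := by decide
  ap := fun p hp h3 k => not_dvd_lit hp h3 (by
    have : a5 k = -1 := by revert k; decide
    rw [this]
    norm_num)
  sub := by
    rw [F50, F51, F52]
    ring
  κp := fun p hp h3 j => not_dvd_lit hp h3 (by
    have : κ5 j = 1 ∨ κ5 j = -1 := by revert j; decide
    rcases this with h | h <;> rw [h] <;> norm_num)
  jac := by
    intro p hp h3 j hj
    have hpi : Prime (p : ℤ) := Nat.prime_iff_prime_int.1 hp
    have nda : j ≠ 0 → ¬ (p : ℤ) ∣ a := fun h h4 => nd5 hp h3 hab j 0 h hj h4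
    rw [F50, F51]
    fin_cases j
    · change jacobiSym (1 * -(-(Nc8 a b))) p = 1
      refine jac_mod hp (t := b ^ 2) ?_ ?_
      · have h4 : (p : ℤ) ∣ a := hj
        have e : 1 * -(-(Nc8 a b)) - (b ^ 2) ^ 2 = a * (a ^ 3 - 2 * a * b ^ 2) := by
          unfold Nc8
          ring
        rw [e]
        exact h4.mul_right _
      · intro h4
        exact nd5 hp h3 hab 0 3 (by decide) hj (hpi.dvd_of_dvd_pow h4)
    · change jacobiSym (1 * -(-(Mc8 a b))) p = 1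
      refine jac_mod hp (t := a ^ 2) ?_ (fun h4 => nda (by decide) (hpi.dvd_of_dvd_pow h4))
      have e : 1 * -(-(Mc8 a b)) - (a ^ 2) ^ 2 = 0 := by
        unfold Mc8
        ring
      rw [e]
      exact dvd_zero _
    · change jacobiSym (1 * -(-(Mc8 a b))) p = 1
      refine jac_mod hp (t := a ^ 2) ?_ (fun h4 => nda (by decide) (hpi.dvd_of_dvd_pow h4))
      have e : 1 * -(-(Mc8 a b)) - (a ^ 2) ^ 2 = 0 := by
        unfold Mc8
        ring
      rw [e]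
      exact dvd_zero _
    · change jacobiSym (-1 * -(Mc8 a b)) p = 1
      refine jac_mod hp (t := a ^ 2) ?_ (fun h4 => nda (by decide) (hpi.dvd_of_dvd_pow h4))
      have e : -1 * -(Mc8 a b) - (a ^ 2) ^ 2 = 0 := by
        unfold Mc8
        ring
      rw [e]
      exact dvd_zero _
    · change jacobiSym (-1 * -(Mc8 a b)) p = 1
      refine jac_mod hp (t := a ^ 2) ?_ (fun h4 => nda (by decide) (hpi.dvd_of_dvd_pow h4))
      have e : -1 * -(Mc8 a b) - (a ^ 2) ^ 2 = 0 := by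
        unfold Mc8
        ring
      rw [e]
      exact dvd_zero _
  odd := by
    intro j hj
    fin_cases j
    · exact Or.inr rfl
    · exact Or.inr rfl
    · exact Or.inr rfl
    · exact absurd rfl hj
    · exact Or.inl (by decide)
  mb := rfl
  κb := rfl

/-- JOB R5 -/
theorem t_R5 (hLN : S_LN) : S_R5 := by
  refine ⟨3, 4 ^ (3 * 5), ?_⟩
  intro z y X k hz a b hab h0 hb hy hk
  have h := rankg hLN (dat5 hab) hz h0 hb hy hk
  rw [F50, F51] at h
  exact h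

/-! ### `Z/12` -/

/-- the constant factors -/
def a7 : Fin 3 → ℤ := ![-16, -1, -1]

lemma F70 (a b : ℤ) : FM c7 a7 m7 (f7 a b) 0 = -(Mc12 a b) := by
  unfold FM Mc12
  rw [show fc c7 0 = {0, 1} by decide, prod_pair (by decide)]
  change (-16 : ℤ) * (a ^ 6 * b ^ 2) = _
  ring

lemma F71 (a b : ℤ) : FM c7 a7 m7 (f7 a b) 1 = -(Nc12 a b) := by
  unfold FM Nc12
  rw [show fc c7 1 = {2, 3, 4} by decide, prod_insert (by decide), prod_pair (by decide)]
  change (-1 : ℤ) * ((b - a) ^ 3 * ((b + a) ^ 3 * (b ^ 2 + 3 * a ^ 2) ^ 1)) = _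
  ring

lemma F72 (a b : ℤ) : FM c7 a7 m7 (f7 a b) 2 = -(Mc12 a b) + Nc12 a b := by
  unfold FM Mc12 Nc12
  rw [show fc c7 2 = {5, 6} by decide, prod_pair (by decide)]
  change (-1 : ℤ) * ((3 * a ^ 2 - b ^ 2) ^ 1 * (a ^ 2 + b ^ 2) ^ 3) = _
  ring

lemma cof7 (a b : ℤ) (j l : Fin 7) (h : j < l) : ∃ x1 x2 y1 y2 : ℤ,
    12 * a ^ 2 = x1 * f7 a b j + x2 * f7 a b l ∧ 12 * b ^ 2 = y1 * f7 a b j + y2 * f7 a b l := by
  fin_cases j <;> fin_cases l <;> first
    | exact absurd h (by decide)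
    | exact ⟨12 * a, 0, 0, 12 * b, by simp [f7]; ring1, by simp [f7]; ring1⟩
    | exact ⟨12 * a, 0, 12 * b, 12 * b, by simp [f7]; ring1, by simp [f7]; ring1⟩
    | exact ⟨12 * a, 0, -(12 * b), 12 * b, by simp [f7]; ring1, by simp [f7]; ring1⟩
    | exact ⟨12 * a, 0, -(36 * a), 12, by simp [f7]; ring1, by simp [f7]; ring1⟩
    | exact ⟨12 * a, 0, 36 * a, -12, by simp [f7]; ring1, by simp [f7]; ring1⟩
    | exact ⟨12 * a, 0, -(12 * a), 12, by simp [f7]; ring1, by simp [f7]; ring1⟩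
    | exact ⟨12 * a, -(12 * a), 12 * b, 0, by simp [f7]; ring1, by simp [f7]; ring1⟩
    | exact ⟨-(12 * a), 12 * a, 12 * b, 0, by simp [f7]; ring1, by simp [f7]; ring1⟩
    | exact ⟨-(4 * b), 4, 12 * b, 0, by simp [f7]; ring1, by simp [f7]; ring1⟩
    | exact ⟨4 * b, 4, 12 * b, 0, by simp [f7]; ring1, by simp [f7]; ring1⟩
    | exact ⟨-(12 * b), 12, 12 * b, 0, by simp [f7]; ring1, by simp [f7]; ring1⟩
    | exact ⟨-(6 * a), 6 * a, 6 * b, 6 * b, by simp [f7]; ring1, by simp [f7]; ring1⟩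
    | exact ⟨-(3 * (b + a)), 3, 9 * (b + a), 3, by simp [f7]; ring1, by simp [f7]; ring1⟩
    | exact ⟨6 * (b + a), 6, 18 * (b + a), 6, by simp [f7]; ring1, by simp [f7]; ring1⟩
    | exact ⟨-(6 * (b + a)), 6, 6 * (b + a), 6, by simp [f7]; ring1, by simp [f7]; ring1⟩
    | exact ⟨-(3 * (b - a)), 3, 9 * (b - a), 3, by simp [f7]; ring1, by simp [f7]; ring1⟩
    | exact ⟨6 * (b - a), 6, 18 * (b - a), 6, by simp [f7]; ring1, by simp [f7]; ring1⟩
    | exact ⟨-(6 * (b - a)), 6, 6 * (b - a), 6, by simp [f7]; ring1, by simp [f7]; ring1⟩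
    | exact ⟨2, 2, 6, -6, by simp [f7]; ring1, by simp [f7]; ring1⟩
    | exact ⟨6, -6, -6, 18, by simp [f7]; ring1, by simp [f7]; ring1⟩
    | exact ⟨3, 3, -3, 9, by simp [f7]; ring1, by simp [f7]; ring1⟩

lemma nd7 {p : ℕ} (hp : p.Prime) (h3 : 3 < p) {a b : ℤ} (hab : IsCoprime a b) (j l : Fin 7)
    (hjl : j ≠ l) (h1 : (p : ℤ) ∣ f7 a b j) (h2 : (p : ℤ) ∣ f7 a b l) : False := by
  have hC : ¬ (p : ℤ) ∣ 12 := not_dvd_lit hp h3 (by norm_num)
  rcases lt_or_gt_of_ne hjl with h | h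
  · obtain ⟨x1, x2, y1, y2, e1, e2⟩ := cof7 a b j l h
    exact nd_of hp hab hC e1 e2 h1 h2
  · obtain ⟨x1, x2, y1, y2, e1, e2⟩ := cof7 a b l j h
    exact nd_of hp hab hC e1 e2 h2 h1

lemma dat7 {a b : ℤ} (hab : IsCoprime a b) : Dat 3 (f7 a b) c7 a7 m7 κ7 1 (-3) where
  z2 := by norm_num
  nd := fun p hp h3 j l hjl h1 h2 => nd7 hp h3 hab j l hjl h1 h2
  c3 := by decide
  m1 := by decide
  a0 := by decide
  ap := fun p hp h3 k => not_dvd_lit hp h3 (by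
    have : a7 k = -16 ∨ a7 k = -1 := by revert k; decide
    rcases this with h | h <;> rw [h] <;> norm_num)
  sub := by
    rw [F70, F71, F72]
    ring
  κp := fun p hp h3 j => not_dvd_lit hp h3 (by
    have : κ7 j = 1 ∨ κ7 j = -1 ∨ κ7 j = -3 := by revert j; decide
    rcases this with h | h | h <;> rw [h] <;> norm_num)
  jac := by
    intro p hp h3 j hj
    have hpi : Prime (p : ℤ) := Nat.prime_iff_prime_int.1 hp
    have nda : j ≠ 0 → ¬ (p : ℤ) ∣ a := fun h h4 => nd7 hp h3 hab j 0 h hj h4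
    have ndb : j ≠ 1 → ¬ (p : ℤ) ∣ b := fun h h4 => nd7 hp h3 hab j 1 h hj h4
    have nd4 : j ≠ 0 → j ≠ 1 → ¬ (p : ℤ) ∣ 4 * a ^ 3 * b := by
      intro h h' h4
      rcases hpi.dvd_or_dvd h4 with h5 | h5
      · rcases hpi.dvd_or_dvd h5 with h6 | h6
        · exact not_dvd_lit hp h3 (by norm_num) h6
        · exact nda h (hpi.dvd_of_dvd_pow h6)
      · exact ndb h' h5
    rw [F70, F71]
    have c1 : ∀ u : ℤ, u = Mc12 a b → j ≠ 0 → j ≠ 1 → jacobiSym u p = 1 := by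
      intro u hu h h'
      refine jac_mod hp (t := 4 * a ^ 3 * b) ?_ (nd4 h h')
      have e : u - (4 * a ^ 3 * b) ^ 2 = 0 := by
        rw [hu]
        unfold Mc12
        ring
      rw [e]
      exact dvd_zero _
    fin_cases j
    · change jacobiSym (1 * -(-(Nc12 a b))) p = 1
      refine jac_mod hp (t := b ^ 4) ?_ ?_
      · have h4 : (p : ℤ) ∣ a := hj
        have e : 1 * -(-(Nc12 a b)) - (b ^ 4) ^ 2 =
            a * (a * (-6 * a ^ 2 * b ^ 4 + 8 * a ^ 4 * b ^ 2 - 3 * a ^ 6)) := by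
          unfold Nc12
          ring
        rw [e]
        exact h4.mul_right _
      · intro h4
        exact nd7 hp h3 hab 0 1 (by decide) hj (hpi.dvd_of_dvd_pow h4)
    · change jacobiSym (-3 * -(-(Nc12 a b))) p = 1
      refine jac_mod hp (t := 3 * a ^ 4) ?_ ?_
      · have h4 : (p : ℤ) ∣ b := hj
        have e : -3 * -(-(Nc12 a b)) - (3 * a ^ 4) ^ 2 =
            b * (b * (-3 * (b ^ 6 - 6 * a ^ 4 * b ^ 2 + 8 * a ^ 6))) := by
          unfold Nc12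
          ring
        rw [e]
        exact h4.mul_right _
      · intro h4
        rcases hpi.dvd_or_dvd h4 with h5 | h5
        · exact not_dvd_lit hp h3 (by norm_num) h5
        · exact nd7 hp h3 hab 1 0 (by decide) hj (hpi.dvd_of_dvd_pow h5)
    · exact c1 _ (by change 1 * -(-(Mc12 a b)) = _; ring) (by decide) (by decide)
    · exact c1 _ (by change 1 * -(-(Mc12 a b)) = _; ring) (by decide) (by decide)
    · exact c1 _ (by change 1 * -(-(Mc12 a b)) = _; ring) (by decide) (by decide)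
    · exact c1 _ (by change -1 * -(Mc12 a b) = _; ring) (by decide) (by decide)
    · exact c1 _ (by change -1 * -(Mc12 a b) = _; ring) (by decide) (by decide)
  odd := by
    intro j hj
    fin_cases j
    · exact Or.inr rfl
    · exact absurd rfl hj
    · exact Or.inr rfl
    · exact Or.inr rfl
    · exact Or.inr rfl
    · exact Or.inl (by decide)
    · exact Or.inl (by decide)
  mb := rfl
  κb := rfl

/-- JOB R12 -/
theorem t_R12 (hLN : S_LN) : S_R12 := by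
  refine ⟨3, 4 ^ (3 * 7), ?_⟩
  intro z y X k hz a b hab h0 hb hy hk
  have h := rankg hLN (dat7 hab) hz h0 hb hy hk
  rw [F70, F71] at h
  exact h

end Pool.Agent.V7H34.CY
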