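import Pool.Agent.V7H45.CY.Spec3
import Pool.Agent.V7H34.CY.R
import Pool.Agent.V7H83.CY.LN

/-! JOB R4 of project CYC: the rank bound for the curves with a point of order four. -/

set_option autoImplicit false

namespace Pool.Agent.V7H34.CY

open Finset Pool.Agent.W262.RK Pool.Agent.W307.RT Pool.Agent.W571.RT Pool.Agent.W342.RK2
open Pool.Agent.V7H45.CY

section r4

variable {e : ℤ} {ω : ℕ × ℕ × ℕ}

lemma e_dvd (he : e = 1 ∨ e = -1) {p n : ℕ} : (p : ℤ) ∣ e * (n : ℤ) ↔ p ∣ n := by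
  rcases he with rfl | rfl
  · rw [one_mul]
    exact Int.natCast_dvd_natCast
  · rw [neg_one_mul, dvd_neg]
    exact Int.natCast_dvd_natCast

lemma dvd4 {p : ℕ} (hp : p.Prime) (h2 : 2 < p) {u : ℤ} (h : (p : ℤ) ∣ 4 * u) : (p : ℤ) ∣ u := by
  have hpi : Prime (p : ℤ) := Nat.prime_iff_prime_int.1 hp
  refine (hpi.dvd_or_dvd h).resolve_left fun h4 => ?_
  have h5 : p ∣ 4 := by exact_mod_cast h4
  have h6 : p ∣ 2 := hp.dvd_of_dvd_pow (show p ∣ 2 ^ 2 from h5)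
  have := Nat.le_of_dvd (by norm_num) h6
  omega

lemma f30 : f3 e ω 0 = (ω.2.1 : ℤ) := rfl
lemma f31 : f3 e ω 1 = e * (ω.2.2 : ℤ) := rfl
lemma f32 : f3 e ω 2 = 4 * (e * (ω.2.2 : ℤ)) - (ω.1 : ℤ) * (ω.2.1 : ℤ) ^ 2 := rfl

lemma M3f : -(M3 ω) = -((ω.1 : ℤ) * f3 e ω 0) ^ 2 := by
  rw [f30]
  unfold M3
  ring

lemma N3f : -(N3 e ω) = -(4 * ((ω.1 : ℤ) * f3 e ω 1)) := by
  rw [f31]
  unfold N3
  ring

lemma C3f : -(M3 ω) - -(N3 e ω) = (ω.1 : ℤ) * f3 e ω 2 := by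
  rw [f32]
  unfold M3 N3
  ring

lemma n01 (he : e = 1 ∨ e = -1) (h : Ok3 e ω) {p : ℕ} (hp : p.Prime)
    (h1 : (p : ℤ) ∣ f3 e ω 0) (h2 : (p : ℤ) ∣ f3 e ω 1) : False := by
  have k1 : p ∣ ω.2.1 := Int.natCast_dvd_natCast.1 h1
  have k2 : p ∣ ω.2.2 := (e_dvd he).1 h2
  exact Nat.not_coprime_of_dvd_of_dvd hp.one_lt k1 k2 h.2.2.2.2.1

lemma g1 (he : e = 1 ∨ e = -1) (h : Ok3 e ω) {p : ℕ} (hp : p.Prime)
    (h1 : p ∣ ω.1) (h2 : (p : ℤ) ∣ f3 e ω 1) : False := by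
  have k2 : p ∣ ω.2.2 := (e_dvd he).1 h2
  exact Nat.not_coprime_of_dvd_of_dvd hp.one_lt h1 k2 h.2.2.2.2.2.1

lemma g2 (he : e = 1 ∨ e = -1) (h : Ok3 e ω) {p : ℕ} (hp : p.Prime) (hp2 : 2 < p)
    (h1 : p ∣ ω.1) (h2 : (p : ℤ) ∣ f3 e ω 2) : False := by
  refine g1 he h hp h1 (dvd4 hp hp2 ?_)
  have e1 : 4 * f3 e ω 1 = f3 e ω 2 + (ω.1 : ℤ) * (ω.2.1 : ℤ) ^ 2 := by
    rw [f31, f32]
    ring
  rw [e1]
  exact dvd_add h2 ((Int.natCast_dvd_natCast.2 h1).mul_right _)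

lemma n02 (he : e = 1 ∨ e = -1) (h : Ok3 e ω) {p : ℕ} (hp : p.Prime) (hp2 : 2 < p)
    (h1 : (p : ℤ) ∣ f3 e ω 0) (h2 : (p : ℤ) ∣ f3 e ω 2) : False := by
  refine n01 he h hp h1 (dvd4 hp hp2 ?_)
  have e1 : 4 * f3 e ω 1 = f3 e ω 2 + f3 e ω 0 * ((ω.1 : ℤ) * (ω.2.1 : ℤ)) := by
    rw [f30, f31, f32]
    ring
  rw [e1]
  exact dvd_add h2 (h1.mul_right _)

lemma n12 (he : e = 1 ∨ e = -1) (h : Ok3 e ω) {p : ℕ} (hp : p.Prime)
    (h1 : (p : ℤ) ∣ f3 e ω 1) (h2 : (p : ℤ) ∣ f3 e ω 2) : False := by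
  have hpi : Prime (p : ℤ) := Nat.prime_iff_prime_int.1 hp
  have e1 : (ω.1 : ℤ) * (f3 e ω 0) ^ 2 = 4 * f3 e ω 1 - f3 e ω 2 := by
    rw [f30, f31, f32]
    ring
  have h3 : (p : ℤ) ∣ (ω.1 : ℤ) * (f3 e ω 0) ^ 2 := by
    rw [e1]
    exact dvd_sub (h1.mul_left _) h2
  rcases hpi.dvd_or_dvd h3 with h4 | h4
  · exact g1 he h hp (Int.natCast_dvd_natCast.1 h4) h1
  · exact n01 he h hp (hpi.dvd_of_dvd_pow h4) h1

lemma nd3 (he : e = 1 ∨ e = -1) (h : Ok3 e ω) {p : ℕ} (hp : p.Prime) (hp2 : 2 < p) (j l : Fin 3)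
    (hjl : j ≠ l) (h1 : (p : ℤ) ∣ f3 e ω j) (h2 : (p : ℤ) ∣ f3 e ω l) : False := by
  fin_cases j <;> fin_cases l
  · exact hjl rfl
  · exact n01 he h hp h1 h2
  · exact n02 he h hp hp2 h1 h2
  · exact n01 he h hp h2 h1
  · exact hjl rfl
  · exact n12 he h hp h1 h2
  · exact n02 he h hp hp2 h2 h1
  · exact n12 he h hp h2 h1
  · exact hjl rfl

lemma f3ne (he : e = 1 ∨ e = -1) (h : Ok3 e ω) (j : Fin 3) : f3 e ω j ≠ 0 := by
  have h1 := h.2.1
  have h2 := h.2.2.1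
  have h3 := h.2.2.2.2.2.2
  fin_cases j
  · change (ω.2.1 : ℤ) ≠ 0
    omega
  · change e * (ω.2.2 : ℤ) ≠ 0
    refine mul_ne_zero ?_ (by omega)
    rcases he with rfl | rfl <;> norm_num
  · exact h3

lemma val1 {p : ℕ} [Fact p.Prime] {u : ℤ} (h0 : u ≠ 0) (h1 : (p : ℤ) ∣ u)
    (h2 : ¬ (p : ℤ) ^ 2 ∣ u) : padicValInt p u = 1 := by
  apply le_antisymm
  · by_contra h
    push Not at h
    exact h2 ((padicValInt_dvd_iff 2 _).2 (Or.inr (by omega)))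
  · rcases (padicValInt_dvd_iff (p := p) 1 u).1 (by simpa using h1) with h | h
    · exact absurd h h0
    · exact h

lemma ndA {p : ℕ} (hp : p.Prime)
    (hg : ¬ p ∣ ω.1) (ht : ¬ (p : ℤ) ∣ f3 e ω 0) : ¬ (p : ℤ) ∣ -(M3 ω) := by
  have hpi : Prime (p : ℤ) := Nat.prime_iff_prime_int.1 hp
  rw [M3f (e := e), dvd_neg]
  intro h3
  rcases hpi.dvd_or_dvd (hpi.dvd_of_dvd_pow h3) with h4 | h4
  · exact hg (Int.natCast_dvd_natCast.1 h4)
  · exact ht h4

lemma ndB {p : ℕ} (hp : p.Prime) (hp2 : 2 < p)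
    (hg : ¬ p ∣ ω.1) (ht : ¬ (p : ℤ) ∣ f3 e ω 1) : ¬ (p : ℤ) ∣ -(N3 e ω) := by
  have hpi : Prime (p : ℤ) := Nat.prime_iff_prime_int.1 hp
  rw [N3f, dvd_neg]
  intro h3
  rcases hpi.dvd_or_dvd (dvd4 hp hp2 h3) with h4 | h4
  · exact hg (Int.natCast_dvd_natCast.1 h4)
  · exact ht h4

lemma jac4 {p : ℕ} (hp : p.Prime) (hp2 : 2 < p) (u : ℤ) :
    jacobiSym (4 * u) p = jacobiSym u p := by
  have h4 : jacobiSym 4 p = 1 := by
    refine jac_mod hp (t := 2) (by norm_num) ?_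
    intro h
    have h5 : p ∣ 2 := by exact_mod_cast h
    have := Nat.le_of_dvd (by norm_num) h5
    omega
  rw [jacobiSym.mul_left, h4, one_mul]

lemma valA {p : ℕ} [Fact p.Prime] (he : e = 1 ∨ e = -1) (h : Ok3 e ω)
    (hg : ¬ p ∣ ω.1) (hj : (p : ℤ) ∣ f3 e ω 0) (hj2 : ¬ (p : ℤ) ^ 2 ∣ f3 e ω 0) :
    padicValInt p (-(M3 ω)) = 2 := by
  have h0 := f3ne he h 0
  have hg0 : (ω.1 : ℤ) ≠ 0 := by
    have := h.1
    omega
  have hg' : ¬ (p : ℤ) ∣ (ω.1 : ℤ) := fun h4 => hg (Int.natCast_dvd_natCast.1 h4)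
  have e1 : padicValInt p ((ω.1 : ℤ) * f3 e ω 0) = 1 := by
    rw [padicValInt.mul hg0 h0, padicValInt.eq_zero_of_not_dvd hg', val1 h0 hj hj2]
  have hne : (ω.1 : ℤ) * f3 e ω 0 ≠ 0 := mul_ne_zero hg0 h0
  have e2 : padicValInt p (((ω.1 : ℤ) * f3 e ω 0) ^ 2) = 2 := by
    rw [pow_two, padicValInt.mul hne hne, e1]
  rw [M3f (e := e)]
  unfold padicValInt at e2 ⊢
  rw [Int.natAbs_neg]
  exact e2

/-- the local hypotheses hold at the primes which are kept -/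
lemma loc3 (he : e = 1 ∨ e = -1) (h : Ok3 e ω) {p : ℕ} (hp : p.Prime) (hp2 : 2 < p) {j : Fin 3}
    (hj : (p : ℤ) ∣ f3 e ω j) (hj2 : ¬ (p : ℤ) ^ 2 ∣ f3 e ω j)
    (h0 : j = 0 → ¬ p ∣ ω.1 ∧ jacobiSym ((ω.1 : ℤ) * (e * (ω.2.2 : ℤ))) p = 1) :
    LocM (c3 j) (κ3 j) p (-(M3 ω)) (-(N3 e ω)) := by
  have : Fact p.Prime := ⟨hp⟩
  have hpi : Prime (p : ℤ) := Nat.prime_iff_prime_int.1 hp
  fin_cases j
  · obtain ⟨hg, hJ⟩ := h0 rfl
    change LocM 0 1 p (-(M3 ω)) (-(N3 e ω))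
    unfold LocM
    rw [if_pos rfl]
    refine ⟨?_, ndB hp hp2 hg (fun h4 => n01 he h hp hj h4), ?_,
      Or.inr (jacobiSym.one_left p)⟩
    · rw [M3f (e := e), dvd_neg]
      exact Dvd.dvd.pow (Dvd.dvd.mul_left hj _) (by norm_num)
    · have e1 : 1 * -(-(N3 e ω)) = 4 * ((ω.1 : ℤ) * (e * (ω.2.2 : ℤ))) := by
        unfold N3
        ring
      rw [e1, jac4 hp hp2]
      exact hJ
  · have hg : ¬ p ∣ ω.1 := fun h4 => g1 he h hp h4 hj
    have ht : ¬ (p : ℤ) ∣ f3 e ω 0 := fun h4 => n01 he h hp h4 hj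
    change LocM 1 1 p (-(M3 ω)) (-(N3 e ω))
    unfold LocM
    rw [if_neg (by decide), if_pos rfl]
    refine ⟨?_, ndA (e := e) hp hg ht, ?_, Or.inr (jacobiSym.one_left p)⟩
    · rw [N3f, dvd_neg]
      exact Dvd.dvd.mul_left (Dvd.dvd.mul_left hj _) _
    · refine jac_mod hp (t := (ω.1 : ℤ) * f3 e ω 0) ?_ ?_
      · have e1 : 1 * -(-(M3 ω)) - ((ω.1 : ℤ) * f3 e ω 0) ^ 2 = 0 := by
          rw [f30]
          unfold M3
          ring
        rw [e1]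
        exact dvd_zero _
      · intro h4
        rcases hpi.dvd_or_dvd h4 with h5 | h5
        · exact hg (Int.natCast_dvd_natCast.1 h5)
        · exact ht h5
  · have hg : ¬ p ∣ ω.1 := fun h4 => g2 he h hp hp2 h4 hj
    have ht : ¬ (p : ℤ) ∣ f3 e ω 0 := fun h4 => n02 he h hp hp2 h4 hj
    change LocM 2 (-1) p (-(M3 ω)) (-(N3 e ω))
    unfold LocM
    rw [if_neg (by decide), if_neg (by decide)]
    refine ⟨?_, ndA (e := e) hp hg ht, ?_, Or.inl ?_⟩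
    · rw [C3f]
      exact Dvd.dvd.mul_left hj _
    · refine jac_mod hp (t := (ω.1 : ℤ) * f3 e ω 0) ?_ ?_
      · have e1 : -1 * -(M3 ω) - ((ω.1 : ℤ) * f3 e ω 0) ^ 2 = 0 := by
          rw [f30]
          unfold M3
          ring
        rw [e1]
        exact dvd_zero _
      · intro h4
        rcases hpi.dvd_or_dvd h4 with h5 | h5
        · exact hg (Int.natCast_dvd_natCast.1 h5)
        · exact ht h5
    · have hg0 : (ω.1 : ℤ) ≠ 0 := by
        have := h.1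
        omega
      have hg' : ¬ (p : ℤ) ∣ (ω.1 : ℤ) := fun h4 => hg (Int.natCast_dvd_natCast.1 h4)
      rw [C3f, padicValInt.mul hg0 (f3ne he h 2), padicValInt.eq_zero_of_not_dvd hg', zero_add,
        val1 (f3ne he h 2) hj hj2]
      decide

/-- the valuations are even at the primes which are removed -/
lemma rem3 (hLN : S_LN) (he : e = 1 ∨ e = -1) (h : Ok3 e ω) {p : ℕ} [Fact p.Prime] (hp2 : 2 < p)
    (hg : ¬ p ∣ ω.1) (hj : (p : ℤ) ∣ f3 e ω 0) (hj2 : ¬ (p : ℤ) ^ 2 ∣ f3 e ω 0)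
    (hJ : jacobiSym ((ω.1 : ℤ) * (e * (ω.2.2 : ℤ))) p ≠ 1) (hA : -(M3 ω) ≠ 0)
    (hB : -(N3 e ω) ≠ 0) (hAB : -(M3 ω) ≠ -(N3 e ω)) (x y : ℚ) (hy : y ≠ 0)
    (hxy : y ^ 2 = x * (x - ((-(M3 ω) : ℤ) : ℚ)) * (x - ((-(N3 e ω) : ℤ) : ℚ))) :
    Even (padicValRat p x) ∧ Even (padicValRat p (x - ((-(M3 ω) : ℤ) : ℚ))) := by
  have hp : p.Prime := Fact.out
  have key := hLN p ((-(M3 ω) : ℤ) : ℚ) ((-(N3 e ω) : ℤ) : ℚ) x y (by omega)
    (by exact_mod_cast hA) (by exact_mod_cast hB) (by exact_mod_cast hAB) hy hxy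
  have hnB := ndB hp hp2 hg (fun h4 => n01 he h hp hj h4)
  have main := key (Or.inl ⟨by rw [padicValRat.of_int, valA he h hg hj hj2]; rfl, by
    rw [padicValRat.of_int, padicValInt.eq_zero_of_not_dvd hnB]
    rfl, ?_⟩)
  · exact ⟨main.1, main.2.1⟩
  · intro hsq
    apply hJ
    have h3 : ¬ (p : ℤ) ∣ -(-(N3 e ω)) := not_dvd_neg hnB
    have h4 : IsSquare (((-(-(N3 e ω)) : ℤ) : ℚ) : ℚ_[p]) := by
      rw [Int.cast_neg]
      exact hsq
    have h5 := jac_of_sq h3 h4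
    have e1 : -(-(N3 e ω)) = 4 * ((ω.1 : ℤ) * (e * (ω.2.2 : ℤ))) := by
      unfold N3
      ring
    rwa [e1, jac4 hp hp2] at h5

/-! ### The modulus -/

/-- the primes of `t` which are kept -/
noncomputable def kp (z y : ℕ) (e : ℤ) (ω : ℕ × ℕ × ℕ) : Finset ℕ :=
  (S1 z y (f3 e ω) 0).primeFactors.filter
    (fun p => ¬ p ∣ ω.1 ∧ Jr ((ω.1 : ℤ) * (e * (ω.2.2 : ℤ))) p = 1)

/-- the primes of `t` which are removed -/
noncomputable def rm3 (z y : ℕ) (e : ℤ) (ω : ℕ × ℕ × ℕ) : Finset ℕ :=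
  (S1 z y (f3 e ω) 0).primeFactors.filter
    (fun p => ¬ p ∣ ω.1 ∧ ¬ Jr ((ω.1 : ℤ) * (e * (ω.2.2 : ℤ))) p = 1)

lemma spl_kp (z y : ℕ) : spl z y e ω = ∏ p ∈ kp z y e ω, p := rfl

lemma kp_disj (z y : ℕ) : Disjoint (kp z y e ω) (rm3 z y e ω) := by
  rw [disjoint_left]
  intro p h1 h2
  exact (mem_filter.1 h2).2.2 (mem_filter.1 h1).2.2

lemma kp_mul (z y : ℕ) : spl z y e ω * ∏ p ∈ rm3 z y e ω, p =
    ∏ p ∈ kp z y e ω ∪ rm3 z y e ω, p := by
  rw [spl_kp, prod_union (kp_disj z y)]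

lemma kp_dvd {z y : ℕ} (hs : Squarefree (S1 z y (f3 e ω) 0)) :
    spl z y e ω * ∏ p ∈ rm3 z y e ω, p ∣ S1 z y (f3 e ω) 0 := by
  rw [kp_mul]
  conv_rhs => rw [← Nat.prod_primeFactors_of_squarefree hs]
  refine prod_dvd_prod_of_subset _ _ _ (union_subset (filter_subset _ _) (filter_subset _ _))

/-- the number of the primes outside the modulus -/
lemma bad3 (he : e = 1 ∨ e = -1) (h : Ok3 e ω) {z y X K : ℕ} (hz : 2 ≤ z) (hy : 1 ≤ y)
    (hb : ∀ j, (f3 e ω j).natAbs ≤ X ^ 7) (hK : X < (y + 1) ^ K) :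
    ((2 * -(M3 ω) * -(N3 e ω) * (-(M3 ω) - -(N3 e ω))).natAbs.primeFactors.filter
        (fun q => ¬ q ∣ (∏ j, up3 (spl z y e ω) (S1 z y (f3 e ω)) j) *
          ∏ p ∈ rm3 z y e ω, p)).card ≤
      z + 3 * (7 * K) + ∑ j, (S2 z y (f3 e ω) j).primeFactors.card + ω.1.primeFactors.card := by
  have h0 := f3ne he h
  have hg0 : ω.1 ≠ 0 := by
    have := h.1
    omega
  have hsub : ((2 * -(M3 ω) * -(N3 e ω) * (-(M3 ω) - -(N3 e ω))).natAbs.primeFactors.filter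
        (fun q => ¬ q ∣ (∏ j, up3 (spl z y e ω) (S1 z y (f3 e ω)) j) *
          ∏ p ∈ rm3 z y e ω, p)) ⊆
      (((Icc 1 z) ∪ univ.biUnion (fun j => (f3 e ω j).natAbs.primeFactors.filter (y < ·))) ∪
        univ.biUnion (fun j => (S2 z y (f3 e ω) j).primeFactors)) ∪ ω.1.primeFactors := by
    intro q hq
    rw [mem_filter] at hq
    have hp := Nat.prime_of_mem_primeFactors hq.1
    have hdv := Nat.dvd_of_mem_primeFactors hq.1
    rw [mem_union, mem_union, mem_union, mem_Icc]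
    rcases Nat.lt_or_ge z q with hzq | hzq
    swap
    · exact Or.inl (Or.inl (Or.inl ⟨hp.one_lt.le, hzq⟩))
    · have hqi : Prime (q : ℤ) := Nat.prime_iff_prime_int.1 hp
      have hdv2 : (q : ℤ) ∣ 2 * -(M3 ω) * -(N3 e ω) * (-(M3 ω) - -(N3 e ω)) :=
        Int.natCast_dvd.2 hdv
      by_cases hqg : q ∣ ω.1
      · right
        rw [Nat.mem_primeFactors]
        exact ⟨hp, hqg, hg0⟩
      have hqg' : ¬ (q : ℤ) ∣ (ω.1 : ℤ) := fun h4 => hqg (Int.natCast_dvd_natCast.1 h4)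
      have hk : ∃ l, (q : ℤ) ∣ f3 e ω l := by
        rcases hqi.dvd_or_dvd hdv2 with h1 | h1
        · rcases hqi.dvd_or_dvd h1 with h2 | h2
          · rcases hqi.dvd_or_dvd h2 with h3 | h3
            · exfalso
              have h4 : q ∣ 2 := by exact_mod_cast h3
              have h5 := Nat.le_of_dvd (by norm_num) h4
              omega
            · refine ⟨0, ?_⟩
              rw [M3f (e := e), dvd_neg] at h3
              exact (hqi.dvd_or_dvd (hqi.dvd_of_dvd_pow h3)).resolve_left hqg'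
          · refine ⟨1, ?_⟩
            rw [N3f, dvd_neg] at h2
            exact (hqi.dvd_or_dvd (dvd4 hp (by omega) h2)).resolve_left hqg'
        · refine ⟨2, ?_⟩
          rw [C3f] at h1
          exact (hqi.dvd_or_dvd h1).resolve_left hqg'
      obtain ⟨l, hl⟩ := hk
      left
      rcases Nat.lt_or_ge y q with hyq | hyq
      · left; right
        rw [mem_biUnion]
        refine ⟨l, mem_univ _, ?_⟩
        rw [mem_filter, Nat.mem_primeFactors]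
        exact ⟨⟨hp, Int.natCast_dvd.1 hl, Int.natAbs_ne_zero.2 (h0 l)⟩, hyq⟩
      · right
        have hPS : q ∈ PS z y := mem_PS.2 ⟨⟨hzq, hyq⟩, hp⟩
        rw [mem_biUnion]
        refine ⟨l, mem_univ _, ?_⟩
        have hsq : (q : ℤ) ^ 2 ∣ f3 e ω l := by
          by_contra hcon
          apply hq.2
          have hdS : q ∣ S1 z y (f3 e ω) l :=
            dvd_prod_of_mem _ (mem_filter.2 ⟨hPS, hl, hcon⟩)
          have hSne : S1 z y (f3 e ω) l ≠ 0 := by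
            exact prod_ne_zero_iff.2 fun p hp => (mem_PS.1 (mem_filter.1 hp).1).2.ne_zero
          by_cases hl0 : l = 0
          · subst hl0
            have hmem : q ∈ kp z y e ω ∪ rm3 z y e ω := by
              have hqs : q ∈ (S1 z y (f3 e ω) 0).primeFactors := by
                rw [Nat.mem_primeFactors]
                exact ⟨hp, hdS, hSne⟩
              by_cases hJ : Jr ((ω.1 : ℤ) * (e * (ω.2.2 : ℤ))) q = 1
              · exact mem_union_left _ (mem_filter.2 ⟨hqs, hqg, hJ⟩)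
              · exact mem_union_right _ (mem_filter.2 ⟨hqs, hqg, hJ⟩)
            have h5 : q ∣ spl z y e ω * ∏ p ∈ rm3 z y e ω, p := by
              rw [kp_mul]
              exact dvd_prod_of_mem _ hmem
            refine h5.trans (Nat.mul_dvd_mul ?_ dvd_rfl)
            exact dvd_prod_of_mem (up3 (spl z y e ω) (S1 z y (f3 e ω))) (mem_univ 0)
          · have h6 : up3 (spl z y e ω) (S1 z y (f3 e ω)) l = S1 z y (f3 e ω) l := by
              fin_cases l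
              · exact absurd rfl hl0
              · rfl
              · rfl
            refine Dvd.dvd.mul_right ?_ _
            refine dvd_trans ?_ (dvd_prod_of_mem (up3 (spl z y e ω) (S1 z y (f3 e ω)))
              (mem_univ l))
            rw [h6]
            exact hdS
        rw [Nat.mem_primeFactors]
        refine ⟨hp, dvd_prod_of_mem _ (mem_filter.2 ⟨hPS, hsq⟩), ?_⟩
        exact prod_ne_zero_iff.2 fun p hp => (mem_PS.1 (mem_filter.1 hp).1).2.ne_zero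
  have hone : ∀ j, ((f3 e ω j).natAbs.primeFactors.filter (y < ·)).card ≤ 7 * K := by
    intro j
    set S := (f3 e ω j).natAbs.primeFactors.filter (y < ·) with hS
    have h1 : (y + 1) ^ S.card ≤ ∏ q ∈ S, q :=
      Finset.pow_card_le_prod _ _ _ (fun q hq => by
        have := (mem_filter.1 hq).2
        omega)
    have h2 : ∏ q ∈ S, q ∣ (f3 e ω j).natAbs :=
      (prod_dvd_prod_of_subset _ _ _ (filter_subset _ _)).trans (Nat.prod_primeFactors_dvd _)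
    have h3 : ∏ q ∈ S, q ≤ (f3 e ω j).natAbs :=
      Nat.le_of_dvd (Nat.pos_of_ne_zero (Int.natAbs_ne_zero.2 (h0 j))) h2
    have h4 : (y + 1) ^ S.card < (y + 1) ^ (7 * K) := by
      calc (y + 1) ^ S.card ≤ X ^ 7 := h1.trans (h3.trans (hb j))
        _ < ((y + 1) ^ K) ^ 7 := Nat.pow_lt_pow_left hK (by norm_num)
        _ = (y + 1) ^ (7 * K) := by rw [← pow_mul, mul_comm]
    exact ((Nat.pow_lt_pow_iff_right (by omega)).1 h4).le
  refine (card_le_card hsub).trans ((card_union_le _ _).trans (add_le_add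
    ((card_union_le _ _).trans (add_le_add
      ((card_union_le _ _).trans (add_le_add ?_ ?_)) card_biUnion_le)) le_rfl))
  · simp
  · refine card_biUnion_le.trans ?_
    refine (sum_le_sum fun j _ => hone j).trans ?_
    rw [sum_const, card_univ, smul_eq_mul, Fintype.card_fin]

/-- **the rank bound** -/
theorem rank3 (hLN : S_LN) (he : e = 1 ∨ e = -1) (h : Ok3 e ω)
    {z y X k : ℕ} (hz : 2 ≤ z) (hb : ∀ j, (f3 e ω j).natAbs ≤ X ^ 7) (hy : 1 ≤ y)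
    (hk : X < (y + 1) ^ k) :
    2 ^ Module.finrank ℤ (EAB (-(M3 ω)) (-(N3 e ω))).toAffine.Point ≤
      4 ^ (z + 2) * (4 ^ 21) ^ k * 4 ^ (∑ j, (S2 z y (f3 e ω) j).primeFactors.card) *
        4 ^ ω.1.primeFactors.card *
        NL (∏ j, up3 (spl z y e ω) (S1 z y (f3 e ω)) j)
          (LLs c3 (fun j _ => κ3 j) (up3 (spl z y e ω) (S1 z y (f3 e ω))) ∅) := by
  have h0 := f3ne he h
  have hg0 : (ω.1 : ℤ) ≠ 0 := by
    have := h.1
    omega
  have hA : -(M3 ω) ≠ 0 := by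
    rw [M3f (e := e)]
    exact neg_ne_zero.2 (pow_ne_zero 2 (mul_ne_zero hg0 (h0 0)))
  have hB : -(N3 e ω) ≠ 0 := by
    rw [N3f]
    exact neg_ne_zero.2 (mul_ne_zero (by norm_num) (mul_ne_zero hg0 (h0 1)))
  have hAB : -(M3 ω) ≠ -(N3 e ω) := by
    rw [← sub_ne_zero, C3f]
    exact mul_ne_zero hg0 (h0 2)
  set s := S1 z y (f3 e ω) with hs
  have hmem : s ∈ Tup (Fin 3) z y := S1_mem (fun p hp hzp j l hjl hh =>
    nd3 he h hp (by omega) j l hjl hh.1 hh.2)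
  have hmd : ∏ j, s j ∣ PP z y := Tup_prod_dvd hmem
  have hsqf0 : Squarefree (∏ j, s j) := (PP_squarefree z y).squarefree_of_dvd hmd
  have hs0 : Squarefree (s 0) := hsqf0.squarefree_of_dvd (dvd_prod_of_mem s (mem_univ 0))
  set T := rm3 z y e ω with hT
  set u := up3 (spl z y e ω) s with hu
  have hu0 : u 0 = spl z y e ω := rfl
  have hu1 : u 1 = s 1 := rfl
  have hu2 : u 2 = s 2 := rfl
  have hmdvd : (∏ j, u j) * ∏ p ∈ T, p ∣ ∏ j, s j := by
    have e1 : (∏ j, u j) * ∏ p ∈ T, p = (spl z y e ω * ∏ p ∈ T, p) * (s 1 * s 2) := by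
      rw [Fin.prod_univ_three, hu0, hu1, hu2]
      ring
    have e2 : ∏ j, s j = s 0 * (s 1 * s 2) := by
      rw [Fin.prod_univ_three]
      ring
    rw [e1, e2]
    exact Nat.mul_dvd_mul (kp_dvd hs0) dvd_rfl
  have hsqf : Squarefree ((∏ j, u j) * ∏ p ∈ T, p) := hsqf0.squarefree_of_dvd hmdvd
  have hud : ∀ j, u j ∣ s j := by
    intro j
    fin_cases j
    · exact (Dvd.intro _ rfl).trans (kp_dvd hs0)
    · exact dvd_rfl
    · exact dvd_rfl
  have hPSof : ∀ p : ℕ, p.Prime → p ∣ (∏ j, u j) * ∏ p ∈ T, p → p ∈ PS z y := fun p hp h =>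
    (prime_dvd_PP hp).1 ((h.trans hmdvd).trans hmd)
  have hlt : ∀ p : ℕ, p.Prime → p ∣ (∏ j, u j) * ∏ p ∈ T, p → 2 < p := by
    intro p hp h
    have h1 := (mem_PS.1 (hPSof p hp h)).1.1
    omega
  have hodd2 : ∀ p : ℕ, p.Prime → p ∣ (∏ j, u j) * ∏ p ∈ T, p → p ≠ 2 := by
    intro p hp h
    have h1 := hlt p hp h
    omega
  have hnκ : ∀ p : ℕ, p.Prime → 2 < p → ∀ j, ¬ (p : ℤ) ∣ κ3 j := by
    intro p hp hp2 j hd
    have h1' : ∀ j, κ3 j = 1 ∨ κ3 j = -1 := by decide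
    have h1 := h1' j
    have h2 : (p : ℤ) ∣ 1 := by
      rcases h1 with h1 | h1
      · rwa [h1] at hd
      · rw [h1] at hd
        exact (dvd_neg.1 hd)
    have h3 : p ∣ 1 := by exact_mod_cast h2
    exact hp.one_lt.ne' (Nat.dvd_one.1 h3)
  have hTp : ∀ p ∈ T, p.Prime := fun p hp => Nat.prime_of_mem_primeFactors (mem_filter.1 hp).1
  have hc3 : ∀ j, c3 j ≠ 3 := by decide
  have hxc : XCL := Pool.Agent.W342.RK2.xcl
  have hdesc : DESC4 := Pool.Agent.W214.RK2.desc4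
  have hd := hdesc ((∏ j, u j) * ∏ p ∈ T, p) (LR T (LLs c3 (fun j _ => κ3 j) u ∅))
    (-(M3 ω)) (-(N3 e ω)) hA hB hAB
    (by
      rw [← Nat.not_even_iff_odd, even_iff_two_dvd]
      intro h
      exact hodd2 2 Nat.prime_two h rfl)
    hsqf
    (fun p hp hpd => LR_XC fun _ => ⟨fun j hj => (hxc _ _ _ p hp (hodd2 p hp hpd)
        (fun _ => hnκ p hp (hlt p hp hpd) j)).1,
      fun a1 b1 c1 d1 a2 b2 c2 d2 e1 e2 j hj =>
        (hxc _ _ _ p hp (hodd2 p hp hpd) (fun _ => hnκ p hp (hlt p hp hpd) j)).2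
          a1 b1 c1 d1 a2 b2 c2 d2 (e1 j hj) (e2 j hj)⟩)
    (fun p hp hpd x x' hx' hcurve e1 e2 he1 he2 hsq1 hsq2 => by
      have hpp : p.Prime := Fact.out
      have hx'2 : x' ^ 2 ≠ 0 := pow_ne_zero 2 hx'
      rw [hcurve] at hx'2
      have hx : x ≠ 0 := left_ne_zero_of_mul (left_ne_zero_of_mul hx'2)
      have hxA : x - ((-(M3 ω) : ℤ) : ℚ) ≠ 0 :=
        right_ne_zero_of_mul (left_ne_zero_of_mul hx'2)
      refine ⟨fun hpT => ?_, fun hpT j hj => ?_⟩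
      · have hpm := mem_filter.1 hpT
        have hps := (S1_dvd_iff (f := f3 e ω) (z := z) (y := y) (j := 0) hpp).1
          (Nat.dvd_of_mem_primeFactors hpm.1)
        have hJ : jacobiSym ((ω.1 : ℤ) * (e * (ω.2.2 : ℤ))) p ≠ 1 :=
          fun h => hpm.2.2 (Jr_eq_one.2 h)
        have hev := rem3 hLN he h (hlt p hpp hpd) hpm.2.1 hps.2.1 hps.2.2 hJ hA hB hAB x x' hx'
          hcurve
        exact ⟨(par hx (not_sq_of_squarefree he1) hsq1).1 hev.1,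
          (par hxA (not_sq_of_squarefree he2) hsq2).1 hev.2⟩
      · have hjd : p ∣ s j := hj.trans (hud j)
        have hjs := (S1_dvd_iff (f := f3 e ω) (z := z) (y := y) (j := j) hpp).1 hjd
        have hfin := locm (c3 j) (κ3 j) p (-(M3 ω)) (-(N3 e ω)) (hc3 j)
          (hodd2 p hpp hpd) (hnκ p hpp (hlt p hpp hpd) j) hA hB hAB
          (loc3 he h hpp (hlt p hpp hpd) hjs.2.1 hjs.2.2 (by
            rintro rfl
            have h5 : p ∣ ∏ q ∈ kp z y e ω, q := hj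
            obtain ⟨q, hq, hpq⟩ := (hpp.prime.dvd_finsetProd_iff _).1 h5
            have hq2 := mem_filter.1 hq
            have hqp := Nat.prime_of_mem_primeFactors hq2.1
            have : p = q := (Nat.prime_dvd_prime_iff_eq hpp hqp).1 hpq
            subst this
            exact ⟨hq2.2.1, Jr_eq_one.1 hq2.2.2⟩))
          x x' hx' hcurve e1 e2 he1 he2 hsq1 hsq2
        have hdec : decide (p ∈ (∅ : Finset ℕ)) = false := by simp
        rw [hdec]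
        exact hfin)
  have hNL := NL_rm hTp rfl hsqf (LLs c3 (fun j _ => κ3 j) u ∅)
  refine hd.trans (Nat.mul_le_mul ?_ hNL)
  have hc := bad3 he h (z := z) (y := y) hz hy hb hk
  rw [← hs, ← hu, ← hT] at hc
  calc 4 ^ (((2 * -(M3 ω) * -(N3 e ω) *
        (-(M3 ω) - -(N3 e ω))).natAbs.primeFactors.filter (fun q => ¬ q ∣ (∏ j, u j) *
          ∏ p ∈ T, p)).card + 2)
      ≤ 4 ^ ((z + 2) + (3 * (7 * k)) + (∑ j, (S2 z y (f3 e ω) j).primeFactors.card) +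
          ω.1.primeFactors.card) :=
        Nat.pow_le_pow_right (by norm_num) (by omega)
    _ = _ := by
        rw [pow_add, pow_add, pow_add]
        congr 3
        rw [← pow_mul]
        congr 1
        ring

end r4

/-- **JOB R4** -/
theorem t_R4 : S_R4 :=
  ⟨2, 4 ^ 21, fun _ _ _ _ hz _ _ he h hb hy hk =>
    rank3 Pool.Agent.V7H83.CY.t_LN he h hz hb hy hk⟩

end Pool.Agent.V7H34.CY
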