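import Pool.Agent.V7H45.CY.Spec
import Pool.Agent.V7H45.G8.Rank8

/-! The rank bound for general families, with primes removed from one form. -/

set_option autoImplicit false

namespace Pool.Agent.V7H34.CY

open Finset Pool.Agent.W262.RK Pool.Agent.W307.RT Pool.Agent.W571.RT Pool.Agent.W342.RK2
open Pool.Agent.V7H45.CY

variable {n : ℕ}

/-- the unit partner -/
def Pt (c : Fin 4) (A B : ℤ) : ℤ := if c = 0 then -B else if c = 1 then -A else A

/-- the properties of the family at a point -/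
structure Dat (z0 : ℕ) (f : Fin n → ℤ) (cls : Fin n → Fin 4) (a3 : Fin 3 → ℤ) (m : Fin n → ℕ)
    (κ : Fin n → ℤ) (b0 : Fin n) (δ : ℤ) : Prop where
  z2 : 2 ≤ z0
  nd : ∀ p : ℕ, p.Prime → z0 < p → ∀ j l, j ≠ l → (p : ℤ) ∣ f j → (p : ℤ) ∣ f l → False
  c3 : ∀ j, cls j ≠ 3
  m1 : ∀ j, m j ≠ 0
  a0 : ∀ k, a3 k ≠ 0
  ap : ∀ p : ℕ, p.Prime → z0 < p → ∀ k, ¬ (p : ℤ) ∣ a3 k
  sub : FM cls a3 m f 0 - FM cls a3 m f 1 = FM cls a3 m f 2
  κp : ∀ p : ℕ, p.Prime → z0 < p → ∀ j, ¬ (p : ℤ) ∣ κ j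
  jac : ∀ p : ℕ, p.Prime → z0 < p → ∀ j, (p : ℤ) ∣ f j →
    jacobiSym (κ j * Pt (cls j) (FM cls a3 m f 0) (FM cls a3 m f 1)) p = 1
  odd : ∀ j, j ≠ b0 → Odd (m j) ∨ κ j = 1
  mb : m b0 = 2
  κb : κ b0 = δ

section dat

variable {z0 : ℕ} {f : Fin n → ℤ} {cls : Fin n → Fin 4} {a3 : Fin 3 → ℤ} {m : Fin n → ℕ}
    {κ : Fin n → ℤ} {b0 : Fin n} {δ : ℤ}

lemma ndM (D : Dat z0 f cls a3 m κ b0 δ) {p : ℕ} (hp : p.Prime) (hz : z0 < p) {j : Fin n}
    (hj : (p : ℤ) ∣ f j) {k : Fin 3} {S : Finset (Fin n)} (hS : j ∉ S) :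
    ¬ (p : ℤ) ∣ a3 k * ∏ l ∈ S, f l ^ m l := by
  intro h
  have hpi : Prime (p : ℤ) := Nat.prime_iff_prime_int.1 hp
  rcases hpi.dvd_or_dvd h with h1 | h1
  · exact D.ap p hp hz k h1
  · obtain ⟨l, hl, hl2⟩ := (hpi.dvd_finsetProd_iff _).1 h1
    have hl3 := hpi.dvd_of_dvd_pow hl2
    refine D.nd p hp hz j l ?_ hj hl3
    rintro rfl
    exact hS hl

lemma valF (D : Dat z0 f cls a3 m κ b0 δ) {p : ℕ} (hp : p.Prime) (hz : z0 < p) {j : Fin n}
    (h0 : f j ≠ 0) (hj : (p : ℤ) ∣ f j) (hj2 : ¬ (p : ℤ) ^ 2 ∣ f j) {k : Fin 3}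
    (hk : j ∈ fc cls k) : padicValInt p (FM cls a3 m f k) = m j := by
  have : Fact p.Prime := ⟨hp⟩
  have hn := ndM D (k := k) hp hz hj (notMem_erase j (fc cls k))
  have e1 : FM cls a3 m f k = f j ^ m j * (a3 k * ∏ l ∈ (fc cls k).erase j, f l ^ m l) := by
    unfold FM
    rw [← mul_prod_erase _ _ hk]
    ring
  have hX0 : (a3 k * ∏ l ∈ (fc cls k).erase j, f l ^ m l) ≠ 0 := by
    intro h
    rw [h] at hn
    exact hn (dvd_zero _)
  have hv1 : padicValInt p (f j) = 1 := by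
    apply le_antisymm
    · by_contra h
      push Not at h
      exact hj2 ((padicValInt_dvd_iff 2 _).2 (Or.inr (by omega)))
    · rcases (padicValInt_dvd_iff (p := p) 1 (f j)).1 (by simpa using hj) with h | h
      · exact absurd h h0
      · exact h
  rw [e1, padicValInt.mul (pow_ne_zero _ h0) hX0, padicValInt.eq_zero_of_not_dvd hn, add_zero]
  have h2 : ∀ i : ℕ, padicValInt p (f j ^ i) = i := by
    intro i
    induction i with
    | zero => simp
    | succ i ih => rw [pow_succ, padicValInt.mul (pow_ne_zero _ h0) h0, ih, hv1]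
  exact h2 _

lemma mem_fc' {j : Fin n} {k : Fin 3} : j ∈ fc cls k ↔ cls j = k.castSucc := by
  unfold fc
  rw [mem_filter]
  exact ⟨fun h => h.2, fun h => ⟨mem_univ _, h⟩⟩

lemma hdvd (D : Dat z0 f cls a3 m κ b0 δ) {p : ℕ} {j : Fin n} (hj : (p : ℤ) ∣ f j) {k : Fin 3}
    (hk : j ∈ fc cls k) : (p : ℤ) ∣ FM cls a3 m f k := by
  unfold FM
  rw [← mul_prod_erase _ _ hk]
  apply Dvd.dvd.mul_left
  apply Dvd.dvd.mul_right
  exact dvd_pow hj (D.m1 j)

lemma cases3 (D : Dat z0 f cls a3 m κ b0 δ) (j : Fin n) : cls j = 0 ∨ cls j = 1 ∨ cls j = 2 := by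
  have h := D.c3 j
  revert h
  generalize cls j = c
  revert c
  decide

/-- the local hypotheses hold at the primes which are kept -/
lemma loc (D : Dat z0 f cls a3 m κ b0 δ) {p : ℕ} (hp : p.Prime) (hz : z0 < p) {j : Fin n}
    (h0 : f j ≠ 0) (hj : (p : ℤ) ∣ f j) (hj2 : ¬ (p : ℤ) ^ 2 ∣ f j)
    (hb : j = b0 → jacobiSym δ p = 1) :
    LocM (cls j) (κ j) p (FM cls a3 m f 0) (FM cls a3 m f 1) := by
  have hn : ∀ k, j ∉ fc cls k → ¬ (p : ℤ) ∣ FM cls a3 m f k :=
    fun k hk => ndM D hp hz hj hk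
  have hval : ∀ k, j ∈ fc cls k → padicValInt p (FM cls a3 m f k) = m j :=
    fun k hk => valF D hp hz h0 hj hj2 hk
  have hdv : ∀ k, j ∈ fc cls k → (p : ℤ) ∣ FM cls a3 m f k := fun k hk => hdvd D hj hk
  have hjac := D.jac p hp hz j hj
  have hodd : Odd (m j) ∨ jacobiSym (κ j) p = 1 := by
    by_cases hjb : j = b0
    · right
      rw [hjb, D.κb]
      exact hb hjb
    · rcases D.odd j hjb with h | h
      · exact Or.inl h
      · right
        rw [h]
        exact jacobiSym.one_left p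
  unfold LocM
  unfold Pt at hjac
  rcases cases3 D j with h | h | h
  · rw [if_pos h] at hjac ⊢
    have hm0 : j ∈ fc cls 0 := mem_fc'.2 (by rw [h]; rfl)
    have h2 := hn 1 (fun h3 => by
      have h4 := mem_fc'.1 h3
      rw [h] at h4; exact absurd h4 (by decide))
    exact ⟨hdv 0 hm0, h2, hjac, by rw [hval 0 hm0]; exact hodd⟩
  · rw [if_neg (by rw [h]; decide), if_pos h] at hjac ⊢
    have hm0 : j ∈ fc cls 1 := mem_fc'.2 (by rw [h]; rfl)
    have h2 := hn 0 (fun h3 => by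
      have h4 := mem_fc'.1 h3
      rw [h] at h4; exact absurd h4 (by decide))
    exact ⟨hdv 1 hm0, h2, hjac, by rw [hval 1 hm0]; exact hodd⟩
  · rw [if_neg (by rw [h]; decide), if_neg (by rw [h]; decide)] at hjac ⊢
    have hm0 : j ∈ fc cls 2 := mem_fc'.2 (by rw [h]; rfl)
    have h2 := hn 0 (fun h3 => by
      have h4 := mem_fc'.1 h3
      rw [h] at h4; exact absurd h4 (by decide))
    rw [D.sub]
    exact ⟨hdv 2 hm0, h2, hjac, by rw [hval 2 hm0]; exact hodd⟩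

/-- the valuations are even at the primes which are removed -/
lemma rem (hLN : S_LN) (D : Dat z0 f cls a3 m κ b0 δ) (hf : ∀ k, FM cls a3 m f k ≠ 0) {p : ℕ}
    [Fact p.Prime] (hz : z0 < p) (h0 : f b0 ≠ 0) (hj : (p : ℤ) ∣ f b0)
    (hj2 : ¬ (p : ℤ) ^ 2 ∣ f b0) (hδ : jacobiSym δ p ≠ 1) (x y : ℚ) (hy : y ≠ 0)
    (hxy : y ^ 2 = x * (x - (FM cls a3 m f 0 : ℤ)) * (x - (FM cls a3 m f 1 : ℤ))) :
    Even (padicValRat p x) ∧ Even (padicValRat p (x - (FM cls a3 m f 0 : ℤ))) := by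
  have hp : p.Prime := Fact.out
  have hz2 := D.z2
  have hn : ∀ k, b0 ∉ fc cls k → ¬ (p : ℤ) ∣ FM cls a3 m f k :=
    fun k hk => ndM D hp hz hj hk
  have hval : ∀ k, b0 ∈ fc cls k → padicValInt p (FM cls a3 m f k) = 2 :=
    fun k hk => by rw [valF D hp hz h0 hj hj2 hk, D.mb]
  have hjac := D.jac p hp hz b0 hj
  have hδ0 : ¬ (p : ℤ) ∣ δ := by
    have := D.κp p hp hz b0
    rwa [D.κb] at this
  have hδ1 : jacobiSym δ p = -1 := (jac_ne hδ0).resolve_left hδ
  rw [D.κb, jacobiSym.mul_left, hδ1] at hjac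
  have hP : jacobiSym (Pt (cls b0) (FM cls a3 m f 0) (FM cls a3 m f 1)) p ≠ 1 := by
    intro h
    rw [h] at hjac
    norm_num at hjac
  have vz : ∀ u : ℤ, ¬ (p : ℤ) ∣ u → padicValRat p (u : ℚ) = 0 := by
    intro u hu
    rw [padicValRat.of_int, padicValInt.eq_zero_of_not_dvd hu]
    rfl
  have nsq : ∀ u : ℤ, ¬ (p : ℤ) ∣ u → jacobiSym u p ≠ 1 → ¬ IsSquare ((u : ℚ) : ℚ_[p]) :=
    fun u hu h1 h2 => h1 (jac_of_sq hu h2)
  have hne : ((FM cls a3 m f 0 : ℤ) : ℚ) ≠ ((FM cls a3 m f 1 : ℤ) : ℚ) := by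
    intro h
    have h1 : FM cls a3 m f 0 = FM cls a3 m f 1 := by exact_mod_cast h
    apply hf 2
    rw [← D.sub, h1, sub_self]
  have key := hLN p ((FM cls a3 m f 0 : ℤ) : ℚ) ((FM cls a3 m f 1 : ℤ) : ℚ) x y (by omega)
    (by exact_mod_cast hf 0) (by exact_mod_cast hf 1) hne hy hxy
  unfold Pt at hP
  have main : Even (padicValRat p x) ∧ Even (padicValRat p (x - (FM cls a3 m f 0 : ℤ))) ∧
      Even (padicValRat p (x - (FM cls a3 m f 1 : ℤ))) := by
    apply key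
    rcases cases3 D b0 with h | h | h
    · left
      rw [if_pos h] at hP
      have hm0 : b0 ∈ fc cls 0 := mem_fc'.2 (by rw [h]; rfl)
      have h2 := hn 1 (fun h3 => by
        have h4 := mem_fc'.1 h3
        rw [h] at h4; exact absurd h4 (by decide))
      refine ⟨?_, vz _ h2, ?_⟩
      · rw [padicValRat.of_int, hval 0 hm0]
        rfl
      · have := nsq _ (not_dvd_neg h2) hP
        rw [Int.cast_neg] at this
        exact this
    · right; left
      rw [if_neg (by rw [h]; decide), if_pos h] at hP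
      have hm0 : b0 ∈ fc cls 1 := mem_fc'.2 (by rw [h]; rfl)
      have h2 := hn 0 (fun h3 => by
        have h4 := mem_fc'.1 h3
        rw [h] at h4; exact absurd h4 (by decide))
      refine ⟨?_, vz _ h2, ?_⟩
      · rw [padicValRat.of_int, hval 1 hm0]
        rfl
      · have := nsq _ (not_dvd_neg h2) hP
        rw [Int.cast_neg] at this
        exact this
    · right; right
      rw [if_neg (by rw [h]; decide), if_neg (by rw [h]; decide)] at hP
      have hm0 : b0 ∈ fc cls 2 := mem_fc'.2 (by rw [h]; rfl)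
      have h2 := hn 0 (fun h3 => by
        have h4 := mem_fc'.1 h3
        rw [h] at h4; exact absurd h4 (by decide))
      refine ⟨?_, vz _ h2, nsq _ h2 hP⟩
      have e : ((FM cls a3 m f 0 : ℤ) : ℚ) - ((FM cls a3 m f 1 : ℤ) : ℚ) =
          ((FM cls a3 m f 2 : ℤ) : ℚ) := by
        rw [← D.sub]
        push_cast
        ring
      rw [e, padicValRat.of_int, hval 2 hm0]
      rfl
  exact ⟨main.1, main.2.1⟩

/-- the number of the primes outside `S1` -/
lemma bad (D : Dat z0 f cls a3 m κ b0 δ) {z y X K : ℕ} (hz : z0 ≤ z) (hy : 1 ≤ y)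
    (h0 : ∀ j, f j ≠ 0) (hb : ∀ j, (f j).natAbs ≤ X ^ 3) (hK : X < (y + 1) ^ K) :
    ((2 * FM cls a3 m f 0 * FM cls a3 m f 1 * FM cls a3 m f 2).natAbs.primeFactors.filter
        (fun q => ¬ q ∣ ∏ j, S1 z y f j)).card ≤
      z + n * (3 * K) + ∑ j, (S2 z y f j).primeFactors.card := by
  have hz2 := D.z2
  have hsub : ((2 * FM cls a3 m f 0 * FM cls a3 m f 1 * FM cls a3 m f 2).natAbs.primeFactors.filter
        (fun q => ¬ q ∣ ∏ j, S1 z y f j)) ⊆
      ((Icc 1 z) ∪ univ.biUnion (fun j => (f j).natAbs.primeFactors.filter (y < ·))) ∪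
        univ.biUnion (fun j => (S2 z y f j).primeFactors) := by
    intro q hq
    rw [mem_filter] at hq
    have hp := Nat.prime_of_mem_primeFactors hq.1
    have hdv := Nat.dvd_of_mem_primeFactors hq.1
    rw [mem_union, mem_union, mem_Icc]
    rcases Nat.lt_or_ge z q with h | h
    swap
    · exact Or.inl (Or.inl ⟨hp.one_lt.le, h⟩)
    · have hqi : Prime (q : ℤ) := Nat.prime_iff_prime_int.1 hp
      have hdv2 : (q : ℤ) ∣ 2 * FM cls a3 m f 0 * FM cls a3 m f 1 *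
          FM cls a3 m f 2 := Int.natCast_dvd.2 hdv
      have hk : ∃ k, (q : ℤ) ∣ FM cls a3 m f k := by
        rcases hqi.dvd_or_dvd hdv2 with h1 | h1
        · rcases hqi.dvd_or_dvd h1 with h2 | h2
          · rcases hqi.dvd_or_dvd h2 with h3 | h3
            · exfalso
              have h4 : q ∣ 2 := by exact_mod_cast h3
              have h5 := Nat.le_of_dvd (by norm_num) h4
              omega
            · exact ⟨0, h3⟩
          · exact ⟨1, h2⟩
        · exact ⟨2, h1⟩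
      obtain ⟨k, hk⟩ := hk
      rcases hqi.dvd_or_dvd hk with h1 | h1
      · exact absurd h1 (D.ap q hp (by omega) k)
      · obtain ⟨l, _, hl'⟩ := (hqi.dvd_finsetProd_iff _).1 h1
        have hl := hqi.dvd_of_dvd_pow hl'
        rcases Nat.lt_or_ge y q with hyq | hyq
        · left; right
          rw [mem_biUnion]
          refine ⟨l, mem_univ _, ?_⟩
          rw [mem_filter, Nat.mem_primeFactors]
          exact ⟨⟨hp, Int.natCast_dvd.1 hl, Int.natAbs_ne_zero.2 (h0 l)⟩, hyq⟩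
        · right
          have hPS : q ∈ PS z y := mem_PS.2 ⟨⟨h, hyq⟩, hp⟩
          rw [mem_biUnion]
          refine ⟨l, mem_univ _, ?_⟩
          have hsq : (q : ℤ) ^ 2 ∣ f l := by
            by_contra hcon
            apply hq.2
            refine dvd_trans ?_ (dvd_prod_of_mem _ (mem_univ l))
            exact dvd_prod_of_mem _ (mem_filter.2 ⟨hPS, hl, hcon⟩)
          rw [Nat.mem_primeFactors]
          refine ⟨hp, dvd_prod_of_mem _ (mem_filter.2 ⟨hPS, hsq⟩), ?_⟩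
          exact prod_ne_zero_iff.2 fun p hp => (mem_PS.1 (mem_filter.1 hp).1).2.ne_zero
  have hone : ∀ j, ((f j).natAbs.primeFactors.filter (y < ·)).card ≤ 3 * K := by
    intro j
    set S := (f j).natAbs.primeFactors.filter (y < ·) with hS
    have h1 : (y + 1) ^ S.card ≤ ∏ q ∈ S, q :=
      Finset.pow_card_le_prod _ _ _ (fun q hq => by
        have := (mem_filter.1 hq).2
        omega)
    have h2 : ∏ q ∈ S, q ∣ (f j).natAbs :=
      (prod_dvd_prod_of_subset _ _ _ (filter_subset _ _)).trans (Nat.prod_primeFactors_dvd _)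
    have h3 : ∏ q ∈ S, q ≤ (f j).natAbs :=
      Nat.le_of_dvd (Nat.pos_of_ne_zero (Int.natAbs_ne_zero.2 (h0 j))) h2
    have h4 : (y + 1) ^ S.card < (y + 1) ^ (3 * K) := by
      calc (y + 1) ^ S.card ≤ X ^ 3 := h1.trans (h3.trans (hb j))
        _ < ((y + 1) ^ K) ^ 3 := Nat.pow_lt_pow_left hK (by norm_num)
        _ = (y + 1) ^ (3 * K) := by rw [← pow_mul, mul_comm]
    exact ((Nat.pow_lt_pow_iff_right (by omega)).1 h4).le
  refine (card_le_card hsub).trans ((card_union_le _ _).trans (add_le_add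
    ((card_union_le _ _).trans (add_le_add ?_ ?_)) card_biUnion_le))
  · simp
  · refine card_biUnion_le.trans ?_
    refine (sum_le_sum fun j _ => hone j).trans ?_
    rw [sum_const, card_univ, smul_eq_mul, Fintype.card_fin]

end dat

/-! ### The primes which are removed -/

/-- the primes which are removed -/
noncomputable def rm (δ : ℤ) (s : ℕ) : Finset ℕ := s.primeFactors.filter (fun p => ¬ Jr δ p = 1)

lemma ps_mul_rm (δ : ℤ) {s : ℕ} (hs : Squarefree s) : ps δ s * ∏ p ∈ rm δ s, p = s := by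
  unfold ps rm
  rw [Finset.prod_filter_mul_prod_filter_not]
  exact Nat.prod_primeFactors_of_squarefree hs

lemma Jr_eq_one {δ : ℤ} {p : ℕ} : Jr δ p = 1 ↔ jacobiSym δ p = 1 := by
  unfold Jr
  exact_mod_cast Iff.rfl

/-- the conditions with the primes removed -/
def LR (T : Finset ℕ) (L : ℕ → Bool → Bool → Bool → Bool → Prop) (p : ℕ) (v w h g : Bool) : Prop :=
  (p ∈ T → v = false ∧ w = false) ∧ (p ∉ T → L p v w h g)

/-- removing the primes -/
lemma NL_rm {m r : ℕ} {T : Finset ℕ} (hT : ∀ p ∈ T, p.Prime) (hr : r = ∏ p ∈ T, p)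
    (hm : Squarefree (m * r)) (L : ℕ → Bool → Bool → Bool → Bool → Prop) :
    NL (m * r) (LR T L) ≤ NL m L := by
  classical
  unfold NL
  refine card_le_card fun d hd => ?_
  rw [mem_filter, mem_product] at hd ⊢
  obtain ⟨⟨h1, h2⟩, h3⟩ := hd
  have hmr0 : m * r ≠ 0 := hm.ne_zero
  have hm0 : m ≠ 0 := left_ne_zero_of_mul hmr0
  have hcop : m.Coprime r := Nat.coprime_of_squarefree_mul hm
  have hTmem : ∀ p ∈ T, p ∈ (m * r).primeFactors := by
    intro p hp
    rw [Nat.mem_primeFactors]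
    refine ⟨hT p hp, ?_, hmr0⟩
    rw [hr]
    exact (dvd_prod_of_mem _ hp).mul_left m
  have hdc : ∀ e : ℕ, e ∣ m * r → (∀ p ∈ T, dv p (e : ℤ) = false) → e ∣ m := by
    intro e he h
    refine Nat.Coprime.dvd_of_dvd_mul_right ?_ he
    rw [hr]
    refine Nat.Coprime.prod_right fun p hp => ?_
    refine Nat.Coprime.symm ((hT p hp).coprime_iff_not_dvd.2 fun h4 => ?_)
    have h5 := h p hp
    unfold dv at h5
    rw [decide_eq_false_iff_not] at h5
    exact h5 (by exact_mod_cast h4)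
  rw [Nat.mem_divisors] at h1 h2
  refine ⟨⟨Nat.mem_divisors.2 ⟨hdc _ h1.1 fun p hp => ((h3 p (hTmem p hp)).1 hp).1, hm0⟩,
    Nat.mem_divisors.2 ⟨hdc _ h2.1 fun p hp => ((h3 p (hTmem p hp)).1 hp).2, hm0⟩⟩, ?_⟩
  intro p hp
  rw [Nat.mem_primeFactors] at hp
  have hpT : p ∉ T := by
    intro h
    have h4 : p ∣ r := by
      rw [hr]
      exact dvd_prod_of_mem _ h
    have h5 := Nat.dvd_gcd hp.2.1 h4
    rw [hcop] at h5
    exact hp.1.one_lt.ne' (Nat.dvd_one.1 h5)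
  exact (h3 p (by rw [Nat.mem_primeFactors]; exact ⟨hp.1, hp.2.1.mul_right r, hmr0⟩)).2 hpT

lemma LR_XC {T : Finset ℕ} {L : ℕ → Bool → Bool → Bool → Bool → Prop} {p : ℕ}
    (h : p ∉ T → XC (L p)) : XC (LR T L p) := by
  refine ⟨⟨fun _ => ⟨rfl, rfl⟩, fun hp => (h hp).1⟩, ?_⟩
  intro a b c d a' b' c' d' h1 h2
  refine ⟨fun hp => ?_, fun hp => (h hp).2 _ _ _ _ _ _ _ _ (h1.2 hp) (h2.2 hp)⟩
  rw [(h1.1 hp).1, (h1.1 hp).2, (h2.1 hp).1, (h2.1 hp).2]
  exact ⟨rfl, rfl⟩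

/-- **the rank bound** -/
theorem rankg (hLN : S_LN) {z0 : ℕ} {f : Fin n → ℤ} {cls : Fin n → Fin 4} {a3 : Fin 3 → ℤ}
    {m : Fin n → ℕ} {κ : Fin n → ℤ} {b0 : Fin n} {δ : ℤ} (D : Dat z0 f cls a3 m κ b0 δ)
    {z y X k : ℕ} (hz : z0 ≤ z) (h0 : ∀ j, f j ≠ 0) (hb : ∀ j, (f j).natAbs ≤ X ^ 3) (hy : 1 ≤ y)
    (hk : X < (y + 1) ^ k) :
    2 ^ Module.finrank ℤ (EAB (FM cls a3 m f 0) (FM cls a3 m f 1)).toAffine.Point ≤
      4 ^ (z + 2) * (4 ^ (3 * n)) ^ k * 4 ^ (∑ j, (S2 z y f j).primeFactors.card) *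
        NL (∏ j, pos δ b0 (S1 z y f) j) (LLs cls (fun j _ => κ j) (pos δ b0 (S1 z y f)) ∅) := by
  have hF := D.sub
  have hz2 := D.z2
  have hFne : ∀ k, FM cls a3 m f k ≠ 0 := fun k =>
    mul_ne_zero (D.a0 k) (prod_ne_zero_iff.2 fun l _ => pow_ne_zero _ (h0 l))
  set s := S1 z y f with hs
  have hmem : s ∈ Tup (Fin n) z y := S1_mem (fun p hp hzp j l hjl h =>
    D.nd p hp (by omega) j l hjl h.1 h.2)
  have hmd : ∏ j, s j ∣ PP z y := Tup_prod_dvd hmem
  have hsqf : Squarefree (∏ j, s j) := (PP_squarefree z y).squarefree_of_dvd hmd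
  have hPSof : ∀ p : ℕ, p.Prime → p ∣ ∏ j, s j → p ∈ PS z y := fun p hp h =>
    (prime_dvd_PP hp).1 (h.trans hmd)
  have hlt : ∀ p : ℕ, p.Prime → p ∣ ∏ j, s j → z0 < p := by
    intro p hp h
    have h1 := (mem_PS.1 (hPSof p hp h)).1.1
    omega
  have hodd2 : ∀ p : ℕ, p.Prime → p ∣ ∏ j, s j → p ≠ 2 := by
    intro p hp h
    have h1 := hlt p hp h
    omega
  have hnκ : ∀ p : ℕ, p.Prime → p ∣ ∏ j, s j → ∀ j, ¬ (p : ℤ) ∣ κ j := fun p hp h =>
    D.κp p hp (hlt p hp h)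
  -- the removed primes
  set T := rm δ (s b0) with hT
  have hsb : Squarefree (s b0) := hsqf.squarefree_of_dvd (dvd_prod_of_mem s (mem_univ b0))
  have hTp : ∀ p ∈ T, p.Prime := fun p hp => Nat.prime_of_mem_primeFactors (mem_filter.1 hp).1
  have hTd : ∀ p ∈ T, p ∣ s b0 := fun p hp => Nat.dvd_of_mem_primeFactors (mem_filter.1 hp).1
  have hprod : ∏ j, s j = (∏ j, pos δ b0 s j) * ∏ p ∈ T, p := by
    rw [← mul_prod_erase univ s (mem_univ b0), ← mul_prod_erase univ (pos δ b0 s) (mem_univ b0)]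
    have e1 : pos δ b0 s b0 = ps δ (s b0) := if_pos rfl
    have e2 : ∏ j ∈ univ.erase b0, pos δ b0 s j = ∏ j ∈ univ.erase b0, s j :=
      prod_congr rfl fun j hj => if_neg (ne_of_mem_erase hj)
    rw [e1, e2]
    conv_lhs => rw [← ps_mul_rm δ hsb]
    ring
  have hposd : ∀ j, pos δ b0 s j ∣ s j := by
    intro j
    unfold pos
    split_ifs with hj
    · exact Dvd.intro _ (by rw [hj]; exact ps_mul_rm δ hsb)
    · exact dvd_rfl
  have hc3 := D.c3
  have hxc : XCL := Pool.Agent.W342.RK2.xcl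
  have hdesc : DESC4 := Pool.Agent.W214.RK2.desc4
  have hd := hdesc (∏ j, s j) (LR T (LLs cls (fun j _ => κ j) (pos δ b0 s) ∅))
    (FM cls a3 m f 0) (FM cls a3 m f 1) (hFne 0) (hFne 1)
    (fun h => hFne 2 (by rw [← hF, h, sub_self]))
    (by
      rw [← Nat.not_even_iff_odd, even_iff_two_dvd]
      intro h
      exact hodd2 2 Nat.prime_two h rfl)
    hsqf
    (fun p hp hpd => LR_XC fun _ => ⟨fun j hj => (hxc _ _ _ p hp (hodd2 p hp hpd)
        (fun _ => hnκ p hp hpd j)).1,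
      fun a1 b1 c1 d1 a2 b2 c2 d2 e1 e2 j hj =>
        (hxc _ _ _ p hp (hodd2 p hp hpd) (fun _ => hnκ p hp hpd j)).2 a1 b1 c1 d1 a2 b2 c2 d2
          (e1 j hj) (e2 j hj)⟩)
    (fun p hp hpd x x' hx' hcurve e1 e2 he1 he2 hsq1 hsq2 => by
      have hpp : p.Prime := Fact.out
      have hx'2 : x' ^ 2 ≠ 0 := pow_ne_zero 2 hx'
      rw [hcurve] at hx'2
      have hx : x ≠ 0 := left_ne_zero_of_mul (left_ne_zero_of_mul hx'2)
      have hxA : x - (FM cls a3 m f 0 : ℤ) ≠ 0 :=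
        right_ne_zero_of_mul (left_ne_zero_of_mul hx'2)
      refine ⟨fun hpT => ?_, fun hpT j hj => ?_⟩
      · have hps := (S1_dvd_iff (f := f) (z := z) (y := y) (j := b0) hpp).1 (hTd p hpT)
        have hδ : jacobiSym δ p ≠ 1 := fun h => (mem_filter.1 hpT).2 (Jr_eq_one.2 h)
        have hev := rem hLN D hFne (hlt p hpp hpd) (h0 b0) hps.2.1 hps.2.2 hδ x x' hx' hcurve
        exact ⟨(par hx (not_sq_of_squarefree he1) hsq1).1 hev.1,
          (par hxA (not_sq_of_squarefree he2) hsq2).1 hev.2⟩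
      · have hjd : p ∣ s j := hj.trans (hposd j)
        have hjs := (S1_dvd_iff (f := f) (z := z) (y := y) (j := j) hpp).1 hjd
        have hfin := locm (cls j) (κ j) p (FM cls a3 m f 0) (FM cls a3 m f 1) (hc3 j)
          (hodd2 p hpp hpd) (hnκ p hpp hpd j) (hFne 0) (hFne 1)
          (fun h => hFne 2 (by rw [← hF, h, sub_self]))
          (loc D hpp (hlt p hpp hpd) (h0 j) hjs.2.1 hjs.2.2 (by
            rintro rfl
            by_contra hδ
            apply hpT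
            rw [hT]
            unfold rm
            rw [mem_filter, Nat.mem_primeFactors]
            exact ⟨⟨hpp, hjd, hsb.ne_zero⟩, fun h => hδ (Jr_eq_one.1 h)⟩))
          x x' hx' hcurve e1 e2 he1 he2 hsq1 hsq2
        have hdec : decide (p ∈ (∅ : Finset ℕ)) = false := by simp
        rw [hdec]
        exact hfin)
  rw [hF] at hd
  have hNL : NL (∏ j, s j) (LR T (LLs cls (fun j _ => κ j) (pos δ b0 s) ∅)) ≤
      NL (∏ j, pos δ b0 s j) (LLs cls (fun j _ => κ j) (pos δ b0 s) ∅) := by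
    rw [hprod]
    exact NL_rm hTp rfl (by rw [← hprod]; exact hsqf) _
  refine hd.trans (Nat.mul_le_mul ?_ hNL)
  have hc := bad D (z := z) (y := y) hz hy h0 hb hk
  rw [← hs] at hc
  calc 4 ^ (((2 * FM cls a3 m f 0 * FM cls a3 m f 1 *
        FM cls a3 m f 2).natAbs.primeFactors.filter (fun q => ¬ q ∣ ∏ j, s j)).card + 2)
      ≤ 4 ^ ((z + 2) + (n * (3 * k)) + ∑ j, (S2 z y f j).primeFactors.card) :=
        Nat.pow_le_pow_right (by norm_num) (by omega)
    _ = _ := by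
        rw [pow_add, pow_add]
        congr 2
        rw [← pow_mul]
        congr 1
        ring

end Pool.Agent.V7H34.CY
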